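import Mathlib

/-! # Liouville's theorem for upper semicontinuous subharmonic functions on the plane -/

set_option autoImplicit false

open Filter Topology Metric Set MeasureTheory Real

namespace Pool.Agent.BrodyRigid

theorem gl_int {u : ℂ → ℝ} (hu : UpperSemicontinuous u) {M m : ℝ} (hM : ∀ z, u z ≤ M)
    (hm : ∀ z, m ≤ u z) (c : ℂ) (r : ℝ) : CircleIntegrable u c r := by
  unfold CircleIntegrable
  refine (intervalIntegrable_const (c := max |M| |m|)).mono_fun ?_ ?_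
  · exact (hu.measurable.comp (continuous_circleMap c r).measurable).aestronglyMeasurable
  · refine ae_of_all _ fun θ => ?_
    show |u (circleMap c r θ)| ≤ |(max |M| |m| : ℝ)|
    rw [abs_of_nonneg ((abs_nonneg M).trans (le_max_left _ _))]
    refine (abs_le.2 ⟨?_, ?_⟩)
    · have h1 := hm (circleMap c r θ)
      have h2 : -|m| ≤ m := neg_abs_le m
      have h3 : |m| ≤ max |M| |m| := le_max_right _ _
      linarith
    · have h1 := hM (circleMap c r θ)
      have h2 : M ≤ |M| := le_abs_self M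
      have h3 : |M| ≤ max |M| |m| := le_max_left _ _
      linarith

/-- equality in the mean value inequality -/
theorem gl_max {v : ℂ → ℝ} {c : ℂ} {r m : ℝ} (hr : 0 < r)
    (hv : UpperSemicontinuousOn v (sphere c r)) (hi : CircleIntegrable v c r)
    (hle : ∀ z ∈ sphere c r, v z ≤ m) (hm : m ≤ circleAverage v c r) :
    ∀ z ∈ sphere c r, v z = m := by
  intro z₁ hz₁
  by_contra hne
  have hlt : v z₁ < m := lt_of_le_of_ne (hle z₁ hz₁) hne
  obtain ⟨θ₁, -, hθ₁⟩ : ∃ θ₁ ∈ univ, circleMap c r θ₁ = z₁ := by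
    have h1 : z₁ ∈ sphere c |r| := by rwa [abs_of_pos hr]
    rw [← range_circleMap] at h1
    obtain ⟨θ, hθ⟩ := h1
    exact ⟨θ, mem_univ _, hθ⟩
  have hs : ∀ θ, circleMap c r θ ∈ sphere c r := fun θ => circleMap_mem_sphere c hr.le θ
  obtain ⟨w, hw⟩ : ∃ w : ℝ → ℝ, w = fun θ => m - v (circleMap c r (θ + (θ₁ - π))) := ⟨_, rfl⟩
  have hw0 : ∀ θ, 0 ≤ w θ := by
    intro θ
    rw [hw]
    simp only
    linarith [hle _ (hs (θ + (θ₁ - π)))]
  have hper : Function.Periodic (fun θ => v (circleMap c r θ)) (2 * π) :=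
    fun x => by simp [periodic_circleMap c r x]
  have hint1 : IntervalIntegrable (fun θ => v (circleMap c r (θ + (θ₁ - π)))) volume 0 (2 * π) := by
    have h1 : IntervalIntegrable (fun θ => v (circleMap c r θ)) volume 0 (0 + 2 * π) := by
      rw [zero_add]; exact hi
    have h3 : IntervalIntegrable (fun θ => v (circleMap c r θ)) volume (θ₁ - π)
        (2 * π + (θ₁ - π)) := hper.intervalIntegrable (by positivity) h1 _ _
    have h4 := h3.comp_add_right (θ₁ - π)
    rwa [sub_self, add_sub_cancel_right] at h4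
  have hint : IntervalIntegrable w volume 0 (2 * π) := by
    rw [hw]
    exact intervalIntegrable_const.sub hint1
  have hzero : ∫ θ in (0:ℝ)..2 * π, w θ ≤ 0 := by
    have h1 : circleAverage v c r =
        (2 * π)⁻¹ • ∫ θ in (0:ℝ)..2 * π, v (circleMap c r (θ + (θ₁ - π))) :=
      circleAverage_eq_integral_add _
    rw [hw, intervalIntegral.integral_sub intervalIntegrable_const hint1,
      intervalIntegral.integral_const]
    rw [h1, smul_eq_mul] at hm
    have h2 : m * (2 * π) ≤ ∫ θ in (0:ℝ)..2 * π, v (circleMap c r (θ + (θ₁ - π))) := by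
      rw [inv_mul_eq_div, le_div_iff₀ (by positivity)] at hm
      exact hm
    rw [smul_eq_mul]
    linarith
  have hpos : 0 < ∫ θ in (0:ℝ)..2 * π, w θ := by
    rw [intervalIntegral.integral_pos_iff_support_of_nonneg_ae (ae_of_all _ hw0) hint]
    refine ⟨by positivity, ?_⟩
    -- a neighbourhood of `π`
    have h1 : ∀ᶠ z in 𝓝[sphere c r] z₁, v z < m := hv z₁ hz₁ m hlt
    have h2 : Tendsto (fun θ : ℝ => circleMap c r (θ + (θ₁ - π))) (𝓝 π)
        (𝓝[sphere c r] z₁) := by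
      refine tendsto_nhdsWithin_iff.2 ⟨?_, Eventually.of_forall fun θ => hs _⟩
      have h3 : Continuous fun θ : ℝ => circleMap c r (θ + (θ₁ - π)) :=
        (continuous_circleMap c r).comp (continuous_id.add continuous_const)
      have h4 := h3.tendsto π
      rwa [add_sub_cancel, hθ₁] at h4
    have h3 := h2.eventually h1
    have h4 : Ioo (0:ℝ) (2 * π) ∈ 𝓝 π := Ioo_mem_nhds (by positivity) (by linarith [pi_pos])
    obtain ⟨t, ht, hto, hπ⟩ := _root_.eventually_nhds_iff.1 (h3.and h4)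
    have h5 : t ⊆ Function.support w ∩ Ioc 0 (2 * π) := by
      intro θ hθ
      obtain ⟨h6, h7⟩ := ht θ hθ
      refine ⟨?_, Ioo_subset_Ioc_self h7⟩
      rw [Function.mem_support, hw]
      simp only
      linarith
    exact (hto.measure_pos volume ⟨π, hπ⟩).trans_le (measure_mono h5)
  linarith

theorem gl_annulus {u : ℂ → ℝ} (hu : UpperSemicontinuous u) {M β ε R : ℝ} (hM : ∀ z, u z ≤ M)
    (h0 : ∀ z, 0 ≤ u z) (hs : ∀ z r, 0 < r → u z ≤ circleAverage u z r)
    (hβ : ∀ z ∈ sphere (0 : ℂ) 1, u z ≤ β)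
    (hMR : M ≤ β + ε * log R) : ∀ z : ℂ, 1 ≤ ‖z‖ → ‖z‖ ≤ R → u z ≤ β + ε * log ‖z‖ := by
  by_contra hcon
  push Not at hcon
  obtain ⟨z₂, h21, h22, h23⟩ := hcon
  obtain ⟨A, hA⟩ : ∃ A : Set ℂ, A = {z | 1 ≤ ‖z‖ ∧ ‖z‖ ≤ R} := ⟨_, rfl⟩
  have hAc : IsCompact A := by
    refine (isCompact_closedBall (0 : ℂ) R).of_isClosed_subset ?_ ?_
    · rw [hA]
      exact (isClosed_le continuous_const continuous_norm).inter
        (isClosed_le continuous_norm continuous_const)
    · intro z hz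
      rw [hA] at hz
      rw [mem_closedBall_zero_iff]
      exact hz.2
  have hne0 : ∀ z ∈ A, z ≠ 0 := by
    intro z hz h
    rw [hA, h] at hz
    have := hz.1
    rw [norm_zero] at this
    linarith
  obtain ⟨v, hv⟩ : ∃ v : ℂ → ℝ, v = fun z => u z + -(ε * log ‖z‖) := ⟨_, rfl⟩
  have hlog : ContinuousOn (fun z : ℂ => -(ε * log ‖z‖)) A :=
    (continuousOn_const.mul ((continuous_norm.continuousOn).log fun z hz =>
      norm_ne_zero_iff.2 (hne0 z hz))).neg
  have hvu : UpperSemicontinuousOn v A := by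
    rw [hv]
    exact (hu.upperSemicontinuousOn A).add hlog.upperSemicontinuousOn
  obtain ⟨z₃, hz₃, hmax⟩ := hvu.exists_isMaxOn ⟨z₂, by rw [hA]; exact ⟨h21, h22⟩⟩ hAc
  obtain ⟨m, hm⟩ : ∃ m, m = v z₃ := ⟨_, rfl⟩
  have hmle : ∀ z ∈ A, v z ≤ m := fun z hz => by rw [hm]; exact hmax hz
  have hmβ : β < m := by
    have h1 := hmle z₂ (by rw [hA]; exact ⟨h21, h22⟩)
    rw [hv] at h1
    simp only at h1
    linarith
  have hK : IsCompact (A ∩ v ⁻¹' Ici m) := hvu.isCompact_inter_preimage_Ici hAc m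
  obtain ⟨z₀, ⟨hz₀, hz₀m⟩, hmin⟩ := hK.exists_isMinOn ⟨z₃, hz₃, hm.le⟩
    (continuous_norm (E := ℂ)).continuousOn
  have hvz₀ : v z₀ = m := le_antisymm (hmle z₀ hz₀) hz₀m
  have hz₀' : 1 ≤ ‖z₀‖ ∧ ‖z₀‖ ≤ R := by rw [hA] at hz₀; exact hz₀
  have h1 : 1 < ‖z₀‖ := by
    refine lt_of_le_of_ne hz₀'.1 fun h => ?_
    have h2 := hβ z₀ (by rw [mem_sphere_zero_iff_norm]; exact h.symm)
    rw [hv] at hvz₀
    simp only at hvz₀
    rw [← h, log_one] at hvz₀
    linarith
  have h2 : ‖z₀‖ < R := by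
    refine lt_of_le_of_ne hz₀'.2 fun h => ?_
    have h3 := hM z₀
    rw [hv] at hvz₀
    simp only at hvz₀
    rw [h] at hvz₀
    linarith
  obtain ⟨r, hr⟩ : ∃ r, r = min (‖z₀‖ - 1) (R - ‖z₀‖) := ⟨_, rfl⟩
  have hr0 : 0 < r := by rw [hr]; exact lt_min (by linarith) (by linarith)
  have hr1 : r ≤ ‖z₀‖ - 1 := by rw [hr]; exact min_le_left _ _
  have hr2 : r ≤ R - ‖z₀‖ := by rw [hr]; exact min_le_right _ _
  have hsA : sphere z₀ r ⊆ A := by
    intro z hz
    rw [mem_sphere_iff_norm] at hz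
    rw [hA]
    have h3 := norm_sub_norm_le z₀ z
    have h4 := norm_sub_norm_le z z₀
    rw [norm_sub_rev] at h3
    exact ⟨by linarith, by linarith⟩
  have hiu : CircleIntegrable u z₀ r := gl_int hu hM h0 z₀ r
  have hil : CircleIntegrable (fun z : ℂ => -(ε * log ‖z‖)) z₀ r :=
    (hlog.mono hsA).circleIntegrable hr0.le
  have havl : circleAverage (fun z : ℂ => -(ε * log ‖z‖)) z₀ r = -(ε * log ‖z₀‖) := by
    have h3 := circleAverage_log_norm_sub_const_eq_log_radius_add_posLog (a := 0) (c := z₀)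
      hr0.ne'
    simp only [sub_zero] at h3
    have h4 : posLog (r⁻¹ * ‖z₀‖) = log (r⁻¹ * ‖z₀‖) := by
      apply posLog_eq_log
      rw [abs_of_nonneg (by positivity), inv_mul_eq_div, one_le_div hr0]
      linarith
    rw [h4, log_mul (by positivity) (by linarith), log_inv] at h3
    have h5 : (fun z : ℂ => -(ε * log ‖z‖)) = (-ε) • fun z : ℂ => log ‖z‖ := by
      funext z
      simp [Pi.smul_apply]
    rw [h5, circleAverage_smul, h3, smul_eq_mul]
    ring
  have hav : m ≤ circleAverage v z₀ r := by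
    have h3 : circleAverage v z₀ r = circleAverage u z₀ r + -(ε * log ‖z₀‖) := by
      rw [hv, circleAverage_fun_add hiu hil, havl]
    have h4 := hs z₀ r hr0
    rw [h3, ← hvz₀, hv]
    simp only
    linarith
  have hiv : CircleIntegrable v z₀ r := by
    rw [hv]
    exact hiu.add hil
  have heq := gl_max hr0 (hvu.mono hsA) hiv (fun z hz => hmle z (hsA hz)) hav
  -- the point with smaller norm
  have hn0 : (‖z₀‖ : ℂ) ≠ 0 := by exact_mod_cast (by linarith : ‖z₀‖ ≠ 0)
  obtain ⟨w, hw⟩ : ∃ w : ℂ, w = z₀ - (r / ‖z₀‖ : ℝ) * z₀ := ⟨_, rfl⟩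
  have hws : w ∈ sphere z₀ r := by
    rw [mem_sphere_iff_norm, hw, sub_sub_cancel_left, norm_neg, norm_mul, Complex.norm_real,
      Real.norm_of_nonneg (by positivity), div_mul_cancel₀ _ (by linarith)]
  have hwn : ‖w‖ = ‖z₀‖ - r := by
    have h3 : w = ((1 - r / ‖z₀‖ : ℝ) : ℂ) * z₀ := by
      rw [hw]; push_cast; ring
    have h4 : 0 ≤ 1 - r / ‖z₀‖ := by
      rw [sub_nonneg, div_le_one (by linarith)]
      linarith
    rw [h3, norm_mul, Complex.norm_real, Real.norm_of_nonneg h4, sub_mul, one_mul,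
      div_mul_cancel₀ _ (by linarith)]
  have h5 := hmin (a := w) ⟨hsA hws, (heq w hws).ge⟩
  simp only [mem_ofPred_eq] at h5
  rw [hwn] at h5
  linarith

/-- Liouville's theorem -/
theorem usc_liouville {u : ℂ → ℝ} (hu : UpperSemicontinuous u) {M : ℝ} (hM : ∀ z, u z ≤ M)
    (h0 : ∀ z, 0 ≤ u z) (hs : ∀ z r, 0 < r → u z ≤ circleAverage u z r) (z z' : ℂ) :
    u z = u z' := by
  obtain ⟨z₁, hz₁, hmax⟩ := (hu.upperSemicontinuousOn (sphere (0 : ℂ) 1)).exists_isMaxOn
    ⟨1, by simp⟩ (isCompact_sphere 0 1)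
  obtain ⟨β, hβ⟩ : ∃ β, β = u z₁ := ⟨_, rfl⟩
  have hb : ∀ z ∈ sphere (0 : ℂ) 1, u z ≤ β := fun z hz => by rw [hβ]; exact hmax hz
  have h1 : ∀ z : ℂ, 1 ≤ ‖z‖ → u z ≤ β := by
    intro z hz
    refine le_of_forall_pos_le_add fun δ hδ => ?_
    obtain ⟨ε, hε⟩ : ∃ ε, ε = δ / (log ‖z‖ + 1) := ⟨_, rfl⟩
    have hl : 0 ≤ log ‖z‖ := log_nonneg hz
    have hε0 : 0 < ε := by rw [hε]; positivity
    obtain ⟨R, hR⟩ : ∃ R, R = max (‖z‖ + 1) (Real.exp ((M - β) / ε)) := ⟨_, rfl⟩
    have hR1 : ‖z‖ + 1 ≤ R := by rw [hR]; exact le_max_left _ _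
    have hR2 : Real.exp ((M - β) / ε) ≤ R := by rw [hR]; exact le_max_right _ _
    have h2 := gl_annulus hu hM h0 hs hb (ε := ε) (R := R) (by
      have h3 : (M - β) / ε ≤ log R := by
        rw [Real.le_log_iff_exp_le (by linarith)]
        exact hR2
      rw [div_le_iff₀ hε0] at h3
      linarith) z hz (by linarith)
    have h4 : ε * log ‖z‖ ≤ δ := by
      rw [hε, div_mul_eq_mul_div, div_le_iff₀ (by positivity)]
      nlinarith
    linarith
  have h2 : ∀ z, u z ≤ β := by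
    intro z
    have hr : 0 < 1 + ‖z‖ := by positivity
    refine (hs z (1 + ‖z‖) hr).trans ?_
    refine circleAverage_mono_on_of_le_circle (gl_int hu hM h0 _ _) fun w hw => ?_
    rw [abs_of_pos hr, mem_sphere_iff_norm] at hw
    apply h1
    have h3 := norm_sub_le w z
    linarith
  have h3 : ∀ z, u z = β := by
    intro z
    rcases eq_or_ne z z₁ with h | h
    · rw [h, hβ]
    have hr : 0 < ‖z - z₁‖ := norm_pos_iff.2 (sub_ne_zero.2 h)
    refine gl_max (c := z₁) hr (hu.upperSemicontinuousOn _) (gl_int hu hM h0 _ _) (fun w _ => h2 w) ?_ z ?_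
    · rw [hβ]
      exact hs z₁ _ hr
    · rw [mem_sphere_iff_norm]
  rw [h3, h3]

end Pool.Agent.BrodyRigid
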