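import Pool.Agent.Lib_helper64.SS.Notions

/-! # Definitions for the theorem on rigidity of immersed Brody curves (MP_45e720_ag)

A complex manifold is a charted space `X` over a finite-dimensional complex normed space `E` with
analytic transition maps; a map between complex manifolds is holomorphic if it is complex
differentiable (`MDifferentiable`). The tangent space at each point is `E`. Symmetric differentials
(`IsSymDiff`), `BrodyHyperbolic` and `NoTorusMaps` are defined in
`Pool.Agent.Lib_helper64.SS.Notions`. -/

set_option autoImplicit false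

open scoped Manifold ContDiff Bundle

namespace Pool.Agent.BrodyRigid

section

variable (E X : Type) [NormedAddCommGroup E] [NormedSpace ℂ E] [TopologicalSpace X]
  [ChartedSpace E X] [IsManifold 𝓘(ℂ, E) ω X]

/-- the tangent spaces of `X` -/
def Tan : X → Type := TangentSpace 𝓘(ℂ, E)

/-- the topology of the tangent spaces (Mathlib's) -/
noncomputable instance (x : X) : TopologicalSpace (Tan E X x) :=
  inferInstanceAs (TopologicalSpace (TangentSpace 𝓘(ℂ, E) x))

/-- the zero vector -/
noncomputable instance (x : X) : Zero (Tan E X x) :=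
  inferInstanceAs (Zero (TangentSpace 𝓘(ℂ, E) x))

/-- the topology of the tangent bundle (Mathlib's) -/
noncomputable instance : TopologicalSpace (Bundle.TotalSpace E (Tan E X)) :=
  inferInstanceAs (TopologicalSpace (TangentBundle 𝓘(ℂ, E) X))

/-- the tangent bundle is a fibre bundle (Mathlib's instance) -/
noncomputable instance : FiberBundle E (Tan E X) :=
  inferInstanceAs (FiberBundle E (TangentSpace 𝓘(ℂ, E) : X → Type))

/-- The manifold of pairs of tangent vectors at the same point (the total space of the Whitney sum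
`TX ⊕ TX`, with Mathlib's charts). -/
abbrev TangentPairs : Type := Bundle.TotalSpace (E × E) (Tan E X ×ᵇ Tan E X)

noncomputable instance : TopologicalSpace (TangentPairs E X) := inferInstance

noncomputable instance : ChartedSpace (ModelProd E (E × E)) (TangentPairs E X) := inferInstance

variable {E X}

/-- the pair of the tangent vectors `u` and `v` at `x` -/
def pair (x : X) (u v : E) : TangentPairs E X := ⟨x, (u, v)⟩

/-- the derivative of the function `τ` of pairs of tangent vectors at the pair `(u, v)` over the
point `x` in the direction `(ξ', u', v')` -/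
noncomputable def pairDeriv (τ : TangentPairs E X → ℂ) (x : X) (u v : E) (ξ' u' v' : E) : ℂ :=
  (tangentMap (𝓘(ℂ, E).prod 𝓘(ℂ, E × E)) 𝓘(ℂ, ℂ) τ ⟨pair x u v, (ξ', (u', v'))⟩).2

variable (E X)

/-- `τ` is a (holomorphic) section of the line bundle `O(k)` on the Grassmann bundle `Gr(2, TX)` of
tangent 2-planes of `X`, regarded as a holomorphic function of two tangent vectors at the same
point which is multiplied by the `k`-th power of the determinant under linear substitutions of
the two vectors. If `X` is a surface, then this is a section of the `k`-th power of the canonical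
bundle (a pluricanonical form). -/
structure IsPlaneForm (k : ℕ) (τ : TangentPairs E X → ℂ) : Prop where
  hol : MDifferentiable (𝓘(ℂ, E).prod 𝓘(ℂ, E × E)) 𝓘(ℂ, ℂ) τ
  equi : ∀ (x : X) (a b c d : ℂ) (u v : E),
    τ (pair x (a • u + b • v) (c • u + d • v)) = (a * d - b * c) ^ k * τ (pair x u v)

/-- The line bundle `O(1)` on the bundle `Gr(2, TX)` of tangent 2-planes is ample: for some `k > 0`
there are sections of `O(k)` without common zeros which define an immersion of `Gr(2, TX)` into a
projective space. (The pairs of linearly independent tangent vectors form a `GL₂`-bundle over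
`Gr(2, TX)`; the last condition says that a tangent vector of this bundle, which is mapped by the
differential to a multiple of the value, is tangent to the orbit of `GL₂`.) If `X` is a surface,
then this says that the canonical bundle of `X` is ample. -/
def PlaneAmple : Prop :=
  ∃ (k L : ℕ) (τ : Fin L → TangentPairs E X → ℂ), 0 < k ∧ (∀ i, IsPlaneForm E X k (τ i)) ∧
    ∀ (x : X) (u v : E), LinearIndependent ℂ ![u, v] →
      (∃ i, τ i (pair x u v) ≠ 0) ∧
      ∀ (ξ' u' v' : E) (m : ℂ),
        (∀ i, pairDeriv (τ i) x u v ξ' u' v' = m * τ i (pair x u v)) →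
        ξ' = 0 ∧ u' ∈ Submodule.span ℂ {u, v} ∧ v' ∈ Submodule.span ℂ {u, v}

/-- `X` is a surface with ample canonical bundle: `X` has dimension two and, for some `k > 0`, there
are sections of the `k`-th power of the canonical bundle (pluricanonical forms) without common
zeros which define an immersion of `X` into a projective space. -/
def CanonicalAmple : Prop :=
  Module.finrank ℂ E = 2 ∧
  ∃ (k L : ℕ) (τ : Fin L → TangentPairs E X → ℂ), 0 < k ∧ (∀ i, IsPlaneForm E X k (τ i)) ∧
    ∀ (x : X) (u v : E), LinearIndependent ℂ ![u, v] →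
      (∃ i, τ i (pair x u v) ≠ 0) ∧
      ∀ (ξ' u' v' : E) (m : ℂ),
        (∀ i, pairDeriv (τ i) x u v ξ' u' v' = m * τ i (pair x u v)) → ξ' = 0

variable {E X}

/-- the velocity vector of `f` at `z` -/
noncomputable def velocity (f : ℂ → X) (z : ℂ) : TangentBundle 𝓘(ℂ, E) X :=
  tangentMap 𝓘(ℂ, ℂ) 𝓘(ℂ, E) f ⟨z, (1 : ℂ)⟩

/-- `f` is a Brody curve: an entire curve whose velocity vectors stay in a compact set of tangent
vectors (that is, the derivative is bounded). -/
def IsBrodyCurve (f : ℂ → X) : Prop :=
  MDifferentiable 𝓘(ℂ, ℂ) 𝓘(ℂ, E) f ∧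
    ∃ K : Set (TangentBundle 𝓘(ℂ, E) X), IsCompact K ∧ ∀ z, velocity (E := E) f z ∈ K

/-- `f` is a uniformly immersed Brody curve: an entire curve whose velocity vectors stay in a
compact set of nonzero tangent vectors. -/
def IsImmersedBrodyCurve (f : ℂ → X) : Prop :=
  MDifferentiable 𝓘(ℂ, ℂ) 𝓘(ℂ, E) f ∧
    ∃ K : Set (TangentBundle 𝓘(ℂ, E) X), IsCompact K ∧ (∀ x : X, ⟨x, (0 : E)⟩ ∉ K) ∧
      ∀ z, velocity (E := E) f z ∈ K

/-- `f` is doubly periodic: it factors through an elliptic curve `ℂ / Λ`. -/
def DoublyPeriodic (f : ℂ → X) : Prop :=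
  ∃ (Λ : Submodule ℤ ℂ) (_ : DiscreteTopology Λ) (_ : IsZLattice ℝ Λ),
    ∀ l ∈ Λ, ∀ z, f (z + l) = f z

/-- `f` is annihilated by all symmetric differentials of `X` of positive degree. -/
def Annihilated (f : ℂ → X) : Prop :=
  ∀ m : ℕ, 0 < m → ∀ σ : TangentBundle 𝓘(ℂ, E) X → ℂ, SS.IsSymDiff E X m σ →
    ∀ z, σ (velocity (E := E) f z) = 0

/-- `N` is a (continuous, complex) Finsler metric on `X`. -/
structure IsFinsler (N : TangentBundle 𝓘(ℂ, E) X → ℝ) : Prop where
  cont : Continuous N
  homog : ∀ (x : X) (a : ℂ) (v : E), N ⟨x, a • v⟩ = ‖a‖ * N ⟨x, v⟩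
  pos : ∀ (x : X) (v : E), v ≠ 0 → 0 < N ⟨x, v⟩

variable (E X)

/-- `X` has a Finsler metric `N` such that the speed `z ↦ N (f' z)` of every entire curve
`f : ℂ → X` is a subharmonic function. This holds if `X` has a hermitian metric of nonpositive
holomorphic sectional curvature: then even the logarithm of the speed of every holomorphic disc is
subharmonic. -/
def NonposCurved : Prop :=
  ∃ N : TangentBundle 𝓘(ℂ, E) X → ℝ, IsFinsler N ∧
    ∀ f : ℂ → X, MDifferentiable 𝓘(ℂ, ℂ) 𝓘(ℂ, E) f → ∀ (z₀ : ℂ) (r : ℝ), 0 < r →
      N (velocity f z₀) ≤ Real.circleAverage (fun z => N (velocity f z)) z₀ r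

/-- Every holomorphic map from an elliptic curve to `X` is constant. -/
def NoEllipticMaps : Prop :=
  ∀ f : ℂ → X, MDifferentiable 𝓘(ℂ, ℂ) 𝓘(ℂ, E) f → DoublyPeriodic f → ∀ z z', f z = f z'

end

end Pool.Agent.BrodyRigid
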