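import Pool.Agent.Lib_helper82.BR.Top
import Pool.Agent.Lib_helper82.BR.Statement

/-! # The theorem in the form of `Statement.lean` -/

set_option autoImplicit false

open scoped Manifold ContDiff Bundle

namespace Pool.Agent.BrodyRigid

variable {E X : Type} [NormedAddCommGroup E] [NormedSpace ℂ E] [TopologicalSpace X]
  [ChartedSpace E X] [IsManifold 𝓘(ℂ, E) ω X]

theorem isPlaneForm_iff (k : ℕ) (τ : TangentPairs E X → ℂ) :
    IsPlaneForm E X k τ ↔ BR.IsPlaneForm E X k τ :=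
  ⟨fun h => ⟨h.hol, h.equi⟩, fun h => ⟨h.hol, h.equi⟩⟩

theorem planeAmple_iff : PlaneAmple E X ↔ BR.PlaneAmple E X := by
  constructor
  · rintro ⟨k, L, τ, hk, hτ, h⟩
    exact ⟨k, L, τ, hk, fun i => (isPlaneForm_iff k (τ i)).1 (hτ i), h⟩
  · rintro ⟨k, L, τ, hk, hτ, h⟩
    exact ⟨k, L, τ, hk, fun i => (isPlaneForm_iff k (τ i)).2 (hτ i), h⟩

theorem canonicalAmple_iff : CanonicalAmple E X ↔ BR.CanonicalAmple E X := by
  constructor
  · rintro ⟨h2, k, L, τ, hk, hτ, h⟩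
    exact ⟨h2, k, L, τ, hk, fun i => (isPlaneForm_iff k (τ i)).1 (hτ i), h⟩
  · rintro ⟨h2, k, L, τ, hk, hτ, h⟩
    exact ⟨h2, k, L, τ, hk, fun i => (isPlaneForm_iff k (τ i)).2 (hτ i), h⟩

theorem velocity_eq (f : ℂ → X) (z : ℂ) :
    velocity (E := E) f z = BR.velocity (E := E) f z := rfl

theorem isBrodyCurve_iff (f : ℂ → X) :
    IsBrodyCurve (E := E) f ↔ BR.IsBrodyCurve (E := E) f := Iff.rfl

theorem isImmersedBrodyCurve_iff (f : ℂ → X) :
    IsImmersedBrodyCurve (E := E) f ↔ BR.IsImmersedBrodyCurve (E := E) f := by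
  constructor
  · rintro ⟨h1, K, h2, h3, h4⟩
    refine ⟨h1, K, h2, ?_, h4⟩
    rintro ⟨x, v⟩ hp (h0 : v = (0 : E))
    exact h3 x (h0 ▸ hp)
  · rintro ⟨h1, K, h2, h3, h4⟩
    exact ⟨h1, K, h2, fun x hx => h3 _ hx rfl, h4⟩

theorem doublyPeriodic_iff (f : ℂ → X) : DoublyPeriodic f ↔ BR.DoublyPeriodic f := Iff.rfl

theorem annihilated_iff (f : ℂ → X) :
    Annihilated (E := E) f ↔ BR.Annihilated (E := E) f := Iff.rfl

theorem nonposCurved_iff : NonposCurved E X ↔ BR.NonposCurved E X := by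
  constructor
  · rintro ⟨N, hN, h⟩
    exact ⟨N, ⟨hN.cont, hN.homog, hN.pos⟩, h⟩
  · rintro ⟨N, hN, h⟩
    exact ⟨N, ⟨hN.cont, hN.homog, hN.pos⟩, h⟩

theorem noEllipticMaps_iff : NoEllipticMaps E X ↔ BR.NoEllipticMaps E X := Iff.rfl

theorem planeAmple_of_canonicalAmple [FiniteDimensional ℂ E] (h : CanonicalAmple E X) :
    PlaneAmple E X :=
  planeAmple_iff.2 (BR.planeAmple_of_canonicalAmple (canonicalAmple_iff.1 h))

theorem main_thm [FiniteDimensional ℂ E] [CompactSpace X] [T2Space X] (h : PlaneAmple E X) :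
    (∀ f : ℂ → X, IsImmersedBrodyCurve (E := E) f → DoublyPeriodic f) ∧
    (∀ f : ℂ → X, IsBrodyCurve (E := E) f → DoublyPeriodic f ∨ Annihilated (E := E) f) ∧
    ((∀ f : ℂ → X, IsBrodyCurve (E := E) f → Annihilated (E := E) f → ∀ z z', f z = f z') ∨
        NonposCurved E X →
      List.TFAE [SS.BrodyHyperbolic E X, SS.NoTorusMaps E X, NoEllipticMaps E X]) := by
  obtain ⟨h1, h2, h3⟩ := BR.main_thm (planeAmple_iff.1 h)
  refine ⟨fun f hf => h1 f ((isImmersedBrodyCurve_iff f).1 hf), h2, fun h4 => h3 ?_⟩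
  rcases h4 with h4 | h4
  · exact Or.inl h4
  · exact Or.inr (nonposCurved_iff.1 h4)

end Pool.Agent.BrodyRigid
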