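import Pool.Agent.Lib_helper82.BR.HPA

/-! # The half-plane lemma (MP_45e720_ag), second part -/

set_option autoImplicit false
set_option linter.unusedSectionVars false

open Filter Topology Metric Set

namespace Pool.Agent.BR

section

variable {E X : Type} [NormedAddCommGroup E] [NormedSpace ℂ E] [FiniteDimensional ℂ E]
  [MetricSpace X] [CompactSpace X] {A : Cha E X}

theorem Mt.t_lip {c C₃ lam r₀ ρ₀ ρ δ : ℝ} {g h : ℂ → X} {s : ℂ → ℂ} {z₀ : ℂ} {i : A.ι}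
    {l : E →L[ℂ] ℂ} {t : ℂ → ℂ} (hM : Mt A c C₃ lam r₀ ρ₀ ρ δ g h s z₀ i l t) {z z' : ℂ}
    (hz : z ∈ ball z₀ ρ₀) (hz' : z' ∈ ball z₀ ρ₀) : ‖t z - t z'‖ ≤ C₃ * ‖z - z'‖ :=
  (convex_ball z₀ ρ₀).norm_image_sub_le_of_norm_deriv_le
    (fun w hw => (hM.lo.t_an w hw).differentiableAt) (fun w hw => hM.lo.t_der w hw) hz' hz

theorem Mt.s_lip {c C₃ lam r₀ ρ₀ ρ δ : ℝ} {g h : ℂ → X} {s : ℂ → ℂ} {z₀ : ℂ} {i : A.ι}
    {l : E →L[ℂ] ℂ} {t : ℂ → ℂ} (hM : Mt A c C₃ lam r₀ ρ₀ ρ δ g h s z₀ i l t) (hρ : 0 < ρ)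
    (hρ₀ : ρ ≤ ρ₀) (hC₃ : 0 < C₃) {z : ℂ} (hz : z ∈ ball z₀ ρ) :
    ‖s z - s z₀‖ ≤ 2 * δ + C₃ * ρ := by
  have h1 := hM.ts z hz
  have h2 := hM.ts z₀ (mem_ball_self hρ)
  have h3 := hM.t_lip (ball_subset_ball hρ₀ hz) (mem_ball_self (hρ.trans_le hρ₀))
  have h4 : ‖z - z₀‖ < ρ := by rwa [← dist_eq_norm]
  have h5 : C₃ * ‖z - z₀‖ ≤ C₃ * ρ := mul_le_mul_of_nonneg_left h4.le hC₃.le
  have h6 : s z - s z₀ = -(t z - s z) + (t z - t z₀) + (t z₀ - s z₀) := by ring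
  rw [h6]
  calc ‖-(t z - s z) + (t z - t z₀) + (t z₀ - s z₀)‖
      ≤ ‖-(t z - s z)‖ + ‖t z - t z₀‖ + ‖t z₀ - s z₀‖ := norm_add₃_le
    _ ≤ 2 * δ + C₃ * ρ := by rw [norm_neg]; linarith

/-- HPA: the half-plane lemma -/
theorem hp_all {c C : ℝ} (hc : 0 < c) (hC : 0 < C) {L k : ℕ} (F : A.Frm L k) (hk : 0 < k) :
    ∃ R > 0, ∀ r₁ > 0, r₁ ≤ R → ∃ ε₀ > 0, ∀ ε r : ℝ, ε ≤ ε₀ → 0 < r →
      HP0 (A.KK c C) ε r r₁ ∧ HPC (A.KK c C) ε r r₁ := by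
  obtain ⟨lam, C₂, rb, hrb, hUni⟩ := exists_uni A c C hc hC
  obtain ⟨rb', hrb', C₃, hC₃, hmatch⟩ := exists_match A c C C₂ hc
  obtain ⟨r₀, hr₀def⟩ : ∃ r₀, r₀ = min rb rb' := ⟨_, rfl⟩
  have hr₀ : 0 < r₀ := by rw [hr₀def]; exact lt_min hrb hrb'
  have hU : A.Uni c C lam r₀ C₂ := hUni r₀ hr₀ (by rw [hr₀def]; exact min_le_left _ _)
  obtain ⟨ρ₀, hρ₀, hρ₀r, R₁, hR₁, hm⟩ :=
    hmatch lam r₀ (by rw [hr₀def]; exact min_le_right _ _) hU
  obtain ⟨ρ, hρdef⟩ : ∃ ρ, ρ = min (ρ₀ / 4) (r₀ / (16 * C₃)) := ⟨_, rfl⟩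
  have hρ : 0 < ρ := by rw [hρdef]; exact lt_min (by positivity) (by positivity)
  have hρ4 : ρ ≤ ρ₀ / 4 := by rw [hρdef]; exact min_le_left _ _
  have hρρ₀ : ρ ≤ ρ₀ := by linarith
  have hCρ : C₃ * ρ ≤ r₀ / 16 := by
    have h1 : ρ ≤ r₀ / (16 * C₃) := by rw [hρdef]; exact min_le_right _ _
    calc C₃ * ρ ≤ C₃ * (r₀ / (16 * C₃)) := mul_le_mul_of_nonneg_left h1 hC₃.le
      _ = r₀ / 16 := by field_simp
  obtain ⟨δ₁, hδ₁, hcore⟩ := hpa_core hU F hk (C₃ := C₃) hρ hρ4 hρ₀r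
  obtain ⟨δ₂, hδ₂, hcmp⟩ := mt_compare hU F hk (C₃ := C₃) hρ hρ4 hρ₀r 1 one_pos
  refine ⟨min R₁ (r₀ / 8), lt_min hR₁ (by positivity), ?_⟩
  intro r₁ hr₁ hr₁R
  have hr₁a : r₁ ≤ R₁ := hr₁R.trans (min_le_left _ _)
  have hr₁b : r₁ ≤ r₀ / 8 := hr₁R.trans (min_le_right _ _)
  obtain ⟨δ, hδdef⟩ : ∃ δ, δ = min (min δ₁ δ₂) (min (r₁ / 8) (r₀ / 16)) := ⟨_, rfl⟩
  have hδ : 0 < δ := by
    rw [hδdef]
    exact lt_min (lt_min hδ₁ hδ₂) (lt_min (by positivity) (by positivity))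
  have hδa : δ ≤ δ₁ := by rw [hδdef]; exact (min_le_left _ _).trans (min_le_left _ _)
  have hδb : δ ≤ δ₂ := by rw [hδdef]; exact (min_le_left _ _).trans (min_le_right _ _)
  have hδc : δ ≤ r₁ / 8 := by rw [hδdef]; exact (min_le_right _ _).trans (min_le_left _ _)
  have hδd : δ ≤ r₀ / 16 := by rw [hδdef]; exact (min_le_right _ _).trans (min_le_right _ _)
  obtain ⟨ε₁, hε₁, hm⟩ := hm ρ hρ hρρ₀ δ hδ
  obtain ⟨ε₂, hε₂, hnear⟩ := near_chart A (r₁ / (8 * C₃)) (by positivity)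
  refine ⟨min ε₁ (ε₂ / 2), lt_min hε₁ (by positivity), ?_⟩
  intro ε r hε hr
  have hεa : ε ≤ ε₁ := hε.trans (min_le_left _ _)
  have hεb : ε < ε₂ := (hε.trans (min_le_right _ _)).trans_lt (by linarith)
  -- displacement zero at `z` for the match at `z` gives the same for the match at `z₀`
  have hzero : ∀ g ∈ A.KK c C, ∀ h ∈ A.KK c C, ∀ (s : ℂ → ℂ) (z₀ z : ℂ) (i j : A.ι)
      (l l' : E →L[ℂ] ℂ) (t t' : ℂ → ℂ), ‖z - z₀‖ ≤ ρ / 2 →
      Mt A c C₃ lam r₀ ρ₀ ρ δ g h s z₀ i l t → Mt A c C₃ lam r₀ ρ₀ ρ δ g h s z j l' t' →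
      TV (F.T j) (A.loc j g) (A.loc j h) t' z = 0 →
        TV (F.T i) (A.loc i g) (A.loc i h) t z = 0 := by
    intro g hg h hh s z₀ z i j l l' t t' hz h1 h2 h3
    have h4 := hcmp g hg h hh s z₀ z i j l l' t t' hz (h1.mono hδb) (h2.mono hδb)
    rw [h3, norm_zero, mul_zero] at h4
    exact norm_le_zero_iff.1 h4
  constructor
  · -- half-plane
    intro g hg h hh θ s hθ hCM
    obtain ⟨Ω, hΩ⟩ : ∃ Ω : Set ℂ, Ω = insert 0 {z | (z * (starRingEnd ℂ) θ).re < 0} := ⟨_, rfl⟩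
    rw [← hΩ] at hCM
    have hex : ∀ z₀, ∃ (i : A.ι) (l : E →L[ℂ] ℂ) (t : ℂ → ℂ), ball z₀ ρ ⊆ Ω →
        Mt A c C₃ lam r₀ ρ₀ ρ δ g h s z₀ i l t := by
      intro z₀
      obtain ⟨i, hi⟩ := hU.leb (g z₀)
      by_cases hP : ball z₀ ρ ⊆ Ω
      · obtain ⟨l, t, hM⟩ := hm ε r r₁ hεa hr hr₁ hr₁a g hg h hh s z₀
          ⟨fun z hz => hCM.1 z (hP hz), fun z hz z' hz' => hCM.2 z (hP hz) z' (hP hz')⟩ i hi
        exact ⟨i, l, t, fun _ => hM⟩
      · exact ⟨i, 0, id, fun h => absurd h hP⟩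
    choose i l t hM using hex
    have hre : ∀ z w : ℂ, (w * (starRingEnd ℂ) θ).re ≤ (z * (starRingEnd ℂ) θ).re + ‖w - z‖ := by
      intro z w
      have h1 : (w * (starRingEnd ℂ) θ).re - (z * (starRingEnd ℂ) θ).re =
          ((w - z) * (starRingEnd ℂ) θ).re := by
        rw [sub_mul, Complex.sub_re]
      have h2 : ((w - z) * (starRingEnd ℂ) θ).re ≤ ‖w - z‖ := by
        refine (Complex.re_le_norm _).trans ?_
        rw [norm_mul, RCLike.norm_conj, hθ, mul_one]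
      linarith
    have hball : ∀ z, (z * (starRingEnd ℂ) θ).re ≤ -ρ → ball z ρ ⊆ Ω := by
      intro z hz w hw
      rw [hΩ]
      refine Or.inr ?_
      have h1 := hre z w
      have h2 : ‖w - z‖ < ρ := by rwa [← dist_eq_norm]
      simp only [mem_setOf_eq]
      linarith
    have hco := hcore δ hδa g hg h hh s (fun z => ball z ρ ⊆ Ω) i l t (fun z hz => hM z hz) θ (-ρ)
      hθ (fun z hz => hball z (by linarith))
    have hθθ : (θ * (starRingEnd ℂ) θ).re = 1 := by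
      rw [Complex.mul_conj, Complex.ofReal_re, Complex.normSq_eq_norm_sq, hθ]
      norm_num
    have hτ : ∀ τ : ℝ, ((-(τ : ℂ) * θ) * (starRingEnd ℂ) θ).re = -τ := by
      intro τ
      have h1 : (-(τ : ℂ) * θ) * (starRingEnd ℂ) θ = ((-τ : ℝ) : ℂ) * (θ * (starRingEnd ℂ) θ) := by
        push_cast
        ring
      rw [h1, Complex.re_ofReal_mul, hθθ, mul_one]
    have hnτ : ∀ τ τ' : ℝ, ‖(-(τ : ℂ) * θ) - (-(τ' : ℂ) * θ)‖ = |τ - τ'| := by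
      intro τ τ'
      have h1 : (-(τ : ℂ) * θ) - (-(τ' : ℂ) * θ) = ((-(τ - τ') : ℝ) : ℂ) * θ := by
        push_cast
        ring
      rw [h1, norm_mul, hθ, mul_one, Complex.norm_real, Real.norm_eq_abs, abs_neg]
    obtain ⟨z₀, hz₀⟩ : ∃ z₀ : ℂ, z₀ = -(((7 / 4 * ρ : ℝ)) : ℂ) * θ := ⟨_, rfl⟩
    obtain ⟨z₁, hz₁⟩ : ∃ z₁ : ℂ, z₁ = -((ρ : ℝ) : ℂ) * θ := ⟨_, rfl⟩
    have hP₀ : ball z₀ ρ ⊆ Ω := hball z₀ (by rw [hz₀, hτ]; linarith)
    have hP₁ : ball z₁ ρ ⊆ Ω := hball z₁ (by rw [hz₁, hτ])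
    have hM₀ := hM z₀ hP₀
    have hM₁ := hM z₁ hP₁
    have hn0 : ‖(0 : ℂ) - z₀‖ = 7 / 4 * ρ := by
      have h1 := hnτ 0 (7 / 4 * ρ)
      rw [← hz₀] at h1
      have h2 : -((0 : ℝ) : ℂ) * θ = 0 := by simp
      rw [h2] at h1
      rw [h1, zero_sub, abs_neg, abs_of_pos (by positivity)]
    have h0mem : (0 : ℂ) ∈ ball z₀ ρ₀ := by
      rw [mem_ball, dist_eq_norm, hn0]
      linarith
    have han := mt_an hU F hρ₀r hg hh hM₀
    have hev : TV (F.T (i z₀)) (A.loc (i z₀) g) (A.loc (i z₀) h) (t z₀) =ᶠ[𝓝 z₀] 0 := by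
      filter_upwards [ball_mem_nhds z₀ (show 0 < ρ / 4 by positivity)] with z hz
      have h1 : ‖z - z₀‖ < ρ / 4 := by rwa [← dist_eq_norm]
      have h2 := hre z₀ z
      have h3 : (z₀ * (starRingEnd ℂ) θ).re = -(7 / 4 * ρ) := by rw [hz₀, hτ]
      refine hzero g hg h hh s z₀ z (i z₀) (i z) (l z₀) (l z) (t z₀) (t z) (by linarith) hM₀
        (hM z (hball z (by linarith))) (hco z (by linarith))
    have hall := AnalyticOnNhd.eqOn_zero_of_preconnected_of_eventuallyEq_zero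
      (fun z hz => han z hz) (convex_ball z₀ ρ₀).isPreconnected
      (mem_ball_self (by linarith : (0 : ℝ) < ρ₀)) hev
    have hw : h (t z₀ 0) = g 0 := mt_zero hU F hk hρ₀r hg hh hM₀ h0mem (hall h0mem)
    refine ⟨t z₀ 0, ?_, hw⟩
    -- the distance of `s 0` from `s z₀`
    obtain ⟨τ, hτdef⟩ : ∃ τ, τ = min r (ρ / 2) := ⟨_, rfl⟩
    have hτ0 : 0 < τ := by rw [hτdef]; exact lt_min hr (by positivity)
    have hτr : τ ≤ r := by rw [hτdef]; exact min_le_left _ _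
    have hτρ : τ ≤ ρ / 2 := by rw [hτdef]; exact min_le_right _ _
    obtain ⟨z₂, hz₂⟩ : ∃ z₂ : ℂ, z₂ = -((τ : ℝ) : ℂ) * θ := ⟨_, rfl⟩
    have h0Ω : (0 : ℂ) ∈ Ω := by rw [hΩ]; exact mem_insert _ _
    have h2Ω : z₂ ∈ Ω := by
      rw [hΩ]
      refine Or.inr ?_
      simp only [mem_setOf_eq]
      rw [hz₂, hτ]
      linarith
    have e1 : ‖s 0 - s z₂‖ ≤ r₁ := by
      refine hCM.2 0 h0Ω z₂ h2Ω ?_
      have h1 := hnτ 0 τ
      rw [← hz₂] at h1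
      have h2 : -((0 : ℝ) : ℂ) * θ = 0 := by simp
      rw [h2] at h1
      rw [h1, zero_sub, abs_neg, abs_of_pos hτ0]
      exact hτr
    have e2 : ‖s z₂ - s z₁‖ ≤ 2 * δ + C₃ * ρ := by
      refine hM₁.s_lip hρ hρρ₀ hC₃ ?_
      rw [mem_ball, dist_eq_norm, hz₂, hz₁, hnτ, abs_lt]
      constructor <;> linarith
    have e3 : ‖s z₁ - s z₀‖ ≤ 2 * δ + C₃ * ρ := by
      refine hM₀.s_lip hρ hρρ₀ hC₃ ?_
      rw [mem_ball, dist_eq_norm, hz₁, hz₀, hnτ, abs_lt]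
      constructor <;> linarith
    have e4 : ‖s 0 - s z₀‖ < r₀ := by
      have h6 : s 0 - s z₀ = (s 0 - s z₂) + (s z₂ - s z₁) + (s z₁ - s z₀) := by ring
      rw [h6]
      calc ‖(s 0 - s z₂) + (s z₂ - s z₁) + (s z₁ - s z₀)‖
          ≤ ‖s 0 - s z₂‖ + ‖s z₂ - s z₁‖ + ‖s z₁ - s z₀‖ := norm_add₃_le
        _ < r₀ := by linarith
    have hun := hM₀.lo.uniq 0 h0mem (s 0) (by rw [mem_ball, dist_eq_norm]; exact e4)
    have hg0 : g 0 ∈ closure (A.W (i z₀)) := by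
      refine subset_closure (hM₀.bg ?_)
      have h1 := hU.stay g hg 0 z₀ (by rw [hn0]; linarith)
      rw [mem_ball]
      have := hU.lam_pos
      linarith
    have hch := (hnear (i z₀) (g 0) hg0 (h (s 0))
      ((hCM.1 0 h0Ω).trans_lt hεb)).2
    refine hun.trans ?_
    have h7 : ‖A.loc (i z₀) h (s 0) - A.loc (i z₀) g 0‖ ≤ r₁ / (8 * C₃) := hch.le
    calc C₃ * ‖A.loc (i z₀) h (s 0) - A.loc (i z₀) g 0‖ ≤ C₃ * (r₁ / (8 * C₃)) :=
          mul_le_mul_of_nonneg_left h7 hC₃.le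
      _ = r₁ / 8 := by field_simp
  · -- whole plane
    intro g hg h hh s hCM
    have hex : ∀ z₀, ∃ (i : A.ι) (l : E →L[ℂ] ℂ) (t : ℂ → ℂ),
        Mt A c C₃ lam r₀ ρ₀ ρ δ g h s z₀ i l t := by
      intro z₀
      obtain ⟨i, hi⟩ := hU.leb (g z₀)
      obtain ⟨l, t, hM⟩ := hm ε r r₁ hεa hr hr₁ hr₁a g hg h hh s z₀
        ⟨fun z _ => hCM.1 z (mem_univ z),
          fun z _ z' _ => hCM.2 z (mem_univ z) z' (mem_univ z')⟩ i hi
      exact ⟨i, l, t, hM⟩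
    choose i l t hM using hex
    have hval : ∀ z, TV (F.T (i z)) (A.loc (i z) g) (A.loc (i z) h) (t z) z = 0 := by
      intro z
      refine hcore δ hδa g hg h hh s (fun _ => True) i l t (fun z _ => hM z) 1 (z.re + ρ)
        (by simp) (fun _ _ => trivial) z ?_
      simp only [map_one, mul_one]
      linarith
    have hmatch' : ∀ z₀ z, ‖z - z₀‖ ≤ ρ / 2 → h (t z₀ z) = g z := by
      intro z₀ z hz
      refine mt_zero hU F hk hρ₀r hg hh (hM z₀) ?_ ?_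
      · rw [mem_ball, dist_eq_norm]
        linarith
      · exact hzero g hg h hh s z₀ z (i z₀) (i z) (l z₀) (l z) (t z₀) (t z) hz (hM z₀) (hM z)
          (hval z)
    obtain ⟨σ, hσ⟩ : ∃ σ : ℂ → ℂ, ∀ z, σ z = t z z := ⟨_, fun _ => rfl⟩
    have hloc : ∀ z₀, ∀ z ∈ ball z₀ (ρ / 2), σ z = t z₀ z := by
      intro z₀ z hz
      have hz' : ‖z - z₀‖ < ρ / 2 := by rwa [← dist_eq_norm]
      have hzρ : z ∈ ball z₀ ρ := ball_subset_ball (by linarith) hz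
      have hzρ₀ : z ∈ ball z₀ ρ₀ := ball_subset_ball (by linarith) hz
      have h1 : ‖s z - s z₀‖ ≤ 2 * δ + C₃ * ρ := (hM z₀).s_lip hρ hρρ₀ hC₃ hzρ
      have h2 : ‖σ z - s z‖ ≤ δ := by
        rw [hσ]
        exact (hM z).ts z (mem_ball_self hρ)
      have h3 : σ z ∈ ball (s z₀) r₀ := by
        rw [mem_ball, dist_eq_norm]
        have h6 : σ z - s z₀ = (σ z - s z) + (s z - s z₀) := by ring
        rw [h6]
        calc ‖(σ z - s z) + (s z - s z₀)‖ ≤ ‖σ z - s z‖ + ‖s z - s z₀‖ := norm_add_le _ _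
          _ < r₀ := by linarith
      have h4 := (hM z₀).lo.uniq z hzρ₀ (σ z) h3
      have h5 : A.loc (i z₀) h (σ z) = A.loc (i z₀) g z := by
        have h6 : h (σ z) = g z := by
          rw [hσ]
          exact hmatch' z z (by rw [sub_self, norm_zero]; positivity)
        rw [Cha.loc, Cha.loc, h6]
      rw [h5, sub_self, norm_zero, mul_zero] at h4
      exact (sub_eq_zero.1 (norm_le_zero_iff.1 h4)).symm
    have hev : ∀ z₀, σ =ᶠ[𝓝 z₀] t z₀ := by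
      intro z₀
      filter_upwards [ball_mem_nhds z₀ (show 0 < ρ / 2 by positivity)] with z hz
      exact hloc z₀ z hz
    have hd : Differentiable ℂ σ := by
      intro z₀
      exact ((hM z₀).lo.t_an z₀ (mem_ball_self hρ₀)).differentiableAt.congr_of_eventuallyEq
        (hev z₀)
    have hdb : ∀ z₀, ‖deriv σ z₀‖ ≤ C₃ := by
      intro z₀
      rw [(hev z₀).deriv_eq]
      exact (hM z₀).lo.t_der z₀ (mem_ball_self hρ₀)
    have hdd : Differentiable ℂ (deriv σ) := by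
      have h1 : ContDiff ℂ 2 σ := hd.contDiff
      exact (contDiff_succ_iff_deriv (n := 1)).1 h1 |>.2.2.differentiable (by norm_num)
    have hconst : ∀ z, deriv σ z = deriv σ 0 := by
      intro z
      refine hdd.apply_eq_apply_of_bounded ?_ z 0
      rw [isBounded_iff_forall_norm_le]
      exact ⟨C₃, by rintro _ ⟨w, rfl⟩; exact hdb w⟩
    have haff : ∀ z, σ z = deriv σ 0 * z + σ 0 := by
      intro z
      have h1 : Differentiable ℂ fun w => σ w - deriv σ 0 * w :=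
        hd.sub (differentiable_id.const_mul _)
      have h2 : ∀ w, deriv (fun w => σ w - deriv σ 0 * w) w = 0 := by
        intro w
        have h3 : HasDerivAt (fun w => σ w - deriv σ 0 * w) (deriv σ w - deriv σ 0 * 1) w :=
          (hd w).hasDerivAt.sub ((hasDerivAt_id w).const_mul _)
        rw [h3.deriv, hconst w]
        ring
      have h4 := is_const_of_deriv_eq_zero h1 h2 z 0
      simp only [mul_zero, sub_zero] at h4
      rw [← h4]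
      ring
    refine ⟨deriv σ 0, σ 0, ?_, ?_⟩
    · intro z
      rw [← haff z, hσ]
      exact (hmatch' z z (by rw [sub_self, norm_zero]; positivity)).symm
    · rw [hσ]
      exact ((hM 0).ts 0 (mem_ball_self hρ)).trans hδc

end

end Pool.Agent.BR
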