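import Pool.Agent.Lib_helper82.BR.B.HSC
import Pool.Agent.Lib_helper82.BR.B.SYM
import Pool.Agent.Lib_helper82.BR.B.FRM
import Pool.Agent.Lib_helper82.BR.B.VEL
import Pool.Agent.Lib_helper82.BR.B.CPV
import Pool.Agent.Lib_helper82.BR.B.BRO
import Pool.Agent.Lib_helper82.BR.B.HOL
import Pool.Agent.Lib_helper82.BR.B.CHA
import Pool.Agent.Lib_helper82.BR.B.DYN
import Pool.Agent.Lib_helper82.BR.HPB
import Pool.Agent.Lib_helper26.BR.Dyn

/-! # Rigidity of immersed Brody curves (MP_45e720_ag): final assembly -/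

set_option autoImplicit false
set_option linter.unusedSectionVars false

open Filter Topology Metric Set
open scoped Manifold ContDiff

namespace Pool.Agent.BR

section kk

variable {E X : Type} [NormedAddCommGroup E] [NormedSpace ℂ E] [FiniteDimensional ℂ E]
  [MetricSpace X] [CompactSpace X] {A : Cha E X}

theorem kk_periodic {L k : ℕ} (F : A.Frm L k) (hk : 0 < k) {c C : ℝ} (hc : 0 < c) (hC : 0 < C)
    {f : ℂ → X} (hf : f ∈ A.KK c C) : DoublyPeriodic f := by
  obtain ⟨R, hR, hD⟩ := kk_dyn A c C hc hC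
  obtain ⟨R', hR', hhp⟩ := hp_all hc hC F hk
  obtain ⟨r₁, hr₁⟩ : ∃ r₁, r₁ = min R R' := ⟨_, rfl⟩
  have hr₁0 : 0 < r₁ := by rw [hr₁]; exact lt_min hR hR'
  have D := hD r₁ hr₁0 (by rw [hr₁]; exact min_le_left _ _)
  obtain ⟨ε₀, hε₀, hH⟩ := hhp r₁ hr₁0 (by rw [hr₁]; exact min_le_right _ _)
  obtain ⟨εd, hεd, hinj⟩ := D.inj (r₁ / 8) (by positivity)
  obtain ⟨ε, hε⟩ : ∃ ε, ε = min ε₀ (εd / 4) := ⟨_, rfl⟩
  have hε0 : 0 < ε := by rw [hε]; exact lt_min hε₀ (by positivity)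
  have hε1 : ε ≤ ε₀ := by rw [hε]; exact min_le_left _ _
  have hε2 : ε ≤ εd / 4 := by rw [hε]; exact min_le_right _ _
  obtain ⟨δe, hδe, heq⟩ := D.equi ε hε0
  obtain ⟨r, hr⟩ : ∃ r, r = min r₁ (δe / 2) := ⟨_, rfl⟩
  have hr0 : 0 < r := by rw [hr]; exact lt_min hr₁0 (by positivity)
  have hr1 : r ≤ r₁ := by rw [hr]; exact min_le_left _ _
  have hr2 : r ≤ δe / 2 := by rw [hr]; exact min_le_right _ _
  obtain ⟨p₁, p₂, hp, h1, h2⟩ := periods D hε0 hr0 hr1 (hH ε r hε1 hr0).1 (hH ε r hε1 hr0).2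
    (fun h hh w w' hw hd => (hinj h hh w w' hw (by linarith)).le)
    (fun g hg z z' hz => (heq g hg z z' (by linarith)).le) f hf
  exact lattice hp h1 h2

end kk

section metric

variable {E X : Type} [NormedAddCommGroup E] [NormedSpace ℂ E] [FiniteDimensional ℂ E]
  [MetricSpace X] [CompactSpace X] [ChartedSpace E X] [IsManifold 𝓘(ℂ, E) ω X]

theorem top_immersed (hX : PlaneAmple E X) (f : ℂ → X) (hf : IsImmersedBrodyCurve (E := E) f) :
    DoublyPeriodic f := by
  obtain ⟨A, hA⟩ := exists_cha (E := E) (X := X)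
  obtain ⟨L, k, hk, ⟨F⟩⟩ := exists_frm A hA hX
  obtain ⟨c, hc, C, hC, h⟩ := immersed_bound A hA f hf
  exact kk_periodic F hk hc hC h

theorem top_brody (hX : PlaneAmple E X) (f : ℂ → X) (hf : IsBrodyCurve (E := E) f) :
    DoublyPeriodic f ∨ Annihilated (E := E) f := by
  obtain ⟨A, hA⟩ := exists_cha (E := E) (X := X)
  obtain ⟨L, k, hk, ⟨F⟩⟩ := exists_frm A hA hX
  by_cases hann : Annihilated (E := E) f
  · exact Or.inr hann
  · left
    unfold Annihilated at hann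
    push Not at hann
    obtain ⟨m, hm, σ, hσ, z, hz⟩ := hann
    obtain ⟨C, hC⟩ := brody_bound A hA f hf
    rcases sym_const A hA f ((holAt_iff A hA f).1 hf.1) C hC m hm σ hσ with h | ⟨c, hc, C', hC', h⟩
    · exact absurd (h z) hz
    · exact kk_periodic F hk hc hC' h

theorem top_nonhyp (hX : PlaneAmple E X) (h : ¬ SS.BrodyHyperbolic E X) :
    (∃ f : ℂ → X, MDifferentiable 𝓘(ℂ, ℂ) 𝓘(ℂ, E) f ∧ DoublyPeriodic f ∧ ∃ z z', f z ≠ f z') ∨
      ∃ f : ℂ → X, IsBrodyCurve (E := E) f ∧ Annihilated (E := E) f ∧ ∃ z z', f z ≠ f z' := by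
  obtain ⟨A, hA⟩ := exists_cha (E := E) (X := X)
  unfold SS.BrodyHyperbolic at h
  push Not at h
  obtain ⟨f, hf, hne⟩ := h
  obtain ⟨g, hg, ⟨C, hC⟩, hgne⟩ := brody_curve A f ((holAt_iff A hA f).1 hf) hne
  have hgb := brody_of_bound A hA g hg C hC
  rcases top_brody hX g hgb with h1 | h1
  · exact Or.inl ⟨g, hgb.1, h1, hgne⟩
  · exact Or.inr ⟨g, hgb, h1, hgne⟩

theorem torus_of_brody (hB : SS.BrodyHyperbolic E X) : SS.NoTorusMaps E X := by
  intro V _ _ _ Λ _ _ f hf _ z z'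
  have h1 : MDifferentiable 𝓘(ℂ, ℂ) 𝓘(ℂ, E) fun s : ℂ => f (z + s • (z' - z)) := by
    refine hf.comp ?_
    rw [mdifferentiable_iff_differentiable]
    fun_prop
  have h2 := hB _ h1 0 1
  simpa using h2

theorem elliptic_of_torus (hT : SS.NoTorusMaps E X) : NoEllipticMaps E X := by
  intro f hf hp z z'
  obtain ⟨Λ, h1, h2, h3⟩ := hp
  exact hT ℂ Λ f hf h3 z z'

theorem top_tfae (hX : PlaneAmple E X)
    (h : ∀ f : ℂ → X, IsBrodyCurve (E := E) f → Annihilated (E := E) f → ∀ z z', f z = f z') :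
    List.TFAE [SS.BrodyHyperbolic E X, SS.NoTorusMaps E X, NoEllipticMaps E X] := by
  tfae_have 1 → 2 := torus_of_brody
  tfae_have 2 → 3 := elliptic_of_torus
  tfae_have 3 → 1 := by
    intro h3
    by_contra h1
    rcases top_nonhyp hX h1 with ⟨f, hf, hp, z, z', hz⟩ | ⟨f, hf, ha, z, z', hz⟩
    · exact hz (h3 f hf hp z z')
    · exact hz (h f hf ha z z')
  tfae_finish

theorem top_curved (hX : PlaneAmple E X) (hN : NonposCurved E X) :
    List.TFAE [SS.BrodyHyperbolic E X, SS.NoTorusMaps E X, NoEllipticMaps E X] := by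
  tfae_have 1 → 2 := torus_of_brody
  tfae_have 2 → 3 := elliptic_of_torus
  tfae_have 3 → 1 := by
    intro h3 
    obtain ⟨A, hA⟩ := exists_cha (E := E) (X := X)
    obtain ⟨L, k, hk, ⟨F⟩⟩ := exists_frm A hA hX
    by_contra h
    unfold SS.BrodyHyperbolic at h
    push Not at h
    obtain ⟨f, hf, hne⟩ := h
    obtain ⟨g, hg, ⟨C, hC⟩, hgne⟩ := brody_curve A f ((holAt_iff A hA f).1 hf) hne
    obtain ⟨g', ⟨z, z', hz⟩, c, hc, C', hC', hg'⟩ := exists_immersed A hA hN g hg C hC hgne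
    exact hz (h3 g' ((holAt_iff A hA g').2 hg'.1) (kk_periodic F hk hc hC' hg') z z')
  tfae_finish

end metric

section final

variable {E X : Type} [NormedAddCommGroup E] [NormedSpace ℂ E] [FiniteDimensional ℂ E]

/-- for surfaces: `K_X` ample -/
theorem planeAmple_of_canonicalAmple [TopologicalSpace X] [ChartedSpace E X]
    [IsManifold 𝓘(ℂ, E) ω X] (h : CanonicalAmple E X) : PlaneAmple E X := by
  obtain ⟨hE, k, L, τ, hk, hτ, h⟩ := h
  refine ⟨k, L, τ, hk, hτ, fun x u v huv => ⟨(h x u v huv).1, fun ξ' u' v' m hm => ?_⟩⟩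
  have hspan : Submodule.span ℂ {u, v} = ⊤ := by
    have h1 := huv.span_eq_top_of_card_eq_finrank' (by rw [hE]; rfl)
    rwa [Matrix.range_cons, Matrix.range_cons, Matrix.range_empty, union_empty,
      singleton_union] at h1
  rw [hspan]
  exact ⟨(h x u v huv).2 ξ' u' v' m hm, Submodule.mem_top, Submodule.mem_top⟩

/-- the final theorem -/
theorem main_thm [t : TopologicalSpace X] [CompactSpace X] [T2Space X] [ChartedSpace E X]
    [IsManifold 𝓘(ℂ, E) ω X] (hX : PlaneAmple E X) :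
    (∀ f : ℂ → X, IsImmersedBrodyCurve (E := E) f → DoublyPeriodic f) ∧
    (∀ f : ℂ → X, IsBrodyCurve (E := E) f → DoublyPeriodic f ∨ Annihilated (E := E) f) ∧
    ((∀ f : ℂ → X, IsBrodyCurve (E := E) f → Annihilated (E := E) f → ∀ z z', f z = f z') ∨
        NonposCurved E X →
      List.TFAE [SS.BrodyHyperbolic E X, SS.NoTorusMaps E X, NoEllipticMaps E X]) := by
  have : ProperSpace E := FiniteDimensional.proper ℂ E
  have : SecondCountableTopology X := ChartedSpace.secondCountable_of_sigmaCompact E X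
  have : TopologicalSpace.MetrizableSpace X :=
    TopologicalSpace.metrizableSpace_of_t3_secondCountable X
  obtain ⟨m, hm⟩ : ∃ m : MetricSpace X,
      m.toPseudoMetricSpace.toUniformSpace.toTopologicalSpace = t :=
    ⟨TopologicalSpace.metrizableSpaceMetric X, rfl⟩
  subst hm
  exact ⟨top_immersed hX, top_brody hX, fun h => h.elim (top_tfae hX) (top_curved hX)⟩

end final

end Pool.Agent.BR
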