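import Pool.Agent.Lib_helper82.BR.Gauges

/-! # Null curves (MP_45e720_ag) -/

set_option autoImplicit false

open scoped Manifold ContDiff Bundle

namespace Pool.Agent.BrodyRigid

variable (E X : Type) [NormedAddCommGroup E] [NormedSpace ℂ E] [TopologicalSpace X]
  [ChartedSpace E X] [IsManifold 𝓘(ℂ, E) ω X]

/-- The entire curve `f` is null: all gauges vanish along it, all jet differentials (of all orders)
which vanish on the curves with derivative zero vanish along it, it is annihilated by all symmetric
differentials of positive degree, and its speed is zero with respect to all singular hermitian and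
Finsler metrics of nonpositive curvature. (The last three conditions follow from the first one.) -/
def IsNullCurve (f : C(ℂ, X)) : Prop :=
  GaugeNull E X f ∧
  (∀ (k : ℕ) (P : C(ℂ, X) → ℂ), IsJetDifferential E X k P → ∀ z, P (shift f z) = 0) ∧
  Annihilated (E := E) (f : ℂ → X) ∧
  ∀ N : TangentBundle 𝓘(ℂ, E) X → ℝ, IsSubharmonicSpeed E X N → ∀ z, N (velocity f z) = 0

end Pool.Agent.BrodyRigid
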