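import Pool.Agent.Lib_helper82.BR.GFinal
import Pool.Agent.Lib_helper82.BR.Null

/-! # The theorem with null curves -/

set_option autoImplicit false

open scoped Manifold ContDiff Bundle

namespace Pool.Agent.BrodyRigid

variable {E X : Type} [NormedAddCommGroup E] [NormedSpace ℂ E] [FiniteDimensional ℂ E]

theorem velocity_shift [t : TopologicalSpace X] [CompactSpace X] [T2Space X] [ChartedSpace E X]
    [IsManifold 𝓘(ℂ, E) ω X] {f : C(ℂ, X)} (hf : f ∈ EntireCurves E X) (z : ℂ) :
    velocity (E := E) (shift f z) 0 = velocity (E := E) f z := by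
  have : ProperSpace E := FiniteDimensional.proper ℂ E
  have : SecondCountableTopology X := ChartedSpace.secondCountable_of_sigmaCompact E X
  have : TopologicalSpace.MetrizableSpace X :=
    TopologicalSpace.metrizableSpace_of_t3_secondCountable X
  obtain ⟨m, hm⟩ : ∃ m : MetricSpace X,
      m.toPseudoMetricSpace.toUniformSpace.toTopologicalSpace = t :=
    ⟨TopologicalSpace.metrizableSpaceMetric X, rfl⟩
  subst hm
  exact BR.gj_vel_shift hf z

theorem null_of_gaugeNull [TopologicalSpace X] [CompactSpace X] [T2Space X] [ChartedSpace E X]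
    [IsManifold 𝓘(ℂ, E) ω X] {f : C(ℂ, X)} (hf : f ∈ EntireCurves E X) (h : GaugeNull E X f) :
    IsNullCurve E X f := by
  obtain ⟨h1, h2, h3⟩ := gauge_examples (E := E) (X := X)
  have hJ : ∀ (k : ℕ) (P : C(ℂ, X) → ℂ), IsJetDifferential E X k P → ∀ z, P (shift f z) = 0 :=
    fun k P hP z => norm_eq_zero.1 (h _ (h2 k P hP) z)
  refine ⟨h, hJ, fun m hm σ hσ z => ?_, fun N hN z => ?_⟩
  · rw [← velocity_shift hf z]
    exact hJ 1 _ (h1 m σ hm hσ) z
  · rw [← velocity_shift hf z]
    exact h _ (h3 N hN) z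

theorem main_null [TopologicalSpace X] [CompactSpace X] [T2Space X] [ChartedSpace E X]
    [IsManifold 𝓘(ℂ, E) ω X] (h : CanonicalAmple E X ∨ PlaneAmple E X) :
    (∀ f : C(ℂ, X), IsBrodyCurve (E := E) f → DoublyPeriodic f ∨ IsNullCurve E X f) ∧
    ((∀ f : C(ℂ, X), IsBrodyCurve (E := E) f → IsNullCurve E X f → ∀ z z', f z = f z') →
      List.TFAE [SS.BrodyHyperbolic E X, SS.NoTorusMaps E X, NoEllipticMaps E X]) := by
  obtain ⟨g1, g2⟩ := main_gauge (h.elim planeAmple_of_canonicalAmple id)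
  exact ⟨fun f hf => (g1 f hf).imp_right (null_of_gaugeNull hf.1),
    fun h4 => g2 fun f hf hn => h4 f hf (null_of_gaugeNull hf.1 hn)⟩

/-- If `X` has a Finsler metric such that the speed of every entire curve is subharmonic, then the
null curves are constant. -/
theorem null_const_of_nonposCurved [TopologicalSpace X] [ChartedSpace E X]
    [IsManifold 𝓘(ℂ, E) ω X] (h : NonposCurved E X) (f : C(ℂ, X)) (hf : f ∈ EntireCurves E X)
    (hn : IsNullCurve E X f) (z z' : ℂ) : f z = f z' := by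
  obtain ⟨N, hN, hs⟩ := h
  have h0 : ∀ x : X, N ⟨x, (0 : E)⟩ = 0 := fun x => by simpa using hN.homog x 0 0
  have hS : IsSubharmonicSpeed E X N :=
    ⟨hN.cont.upperSemicontinuous, fun p => by
      by_cases hp : p.2 = (0 : E)
      · have : p = ⟨p.1, (0 : E)⟩ := by
          obtain ⟨x, v⟩ := p
          exact congrArg (Bundle.TotalSpace.mk x) hp
        rw [this, h0]
      · exact (hN.pos p.1 p.2 hp).le, h0, hs⟩
  have hv : ∀ t, mfderiv 𝓘(ℂ, ℂ) 𝓘(ℂ, E) f t (1 : ℂ) = (0 : E) := by
    intro t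
    by_contra hne
    exact (hN.pos (f t) _ hne).ne' (hn.2.2.2 N hS t)
  have hv' : ∀ t, mfderiv 𝓘(ℂ, ℂ) 𝓘(ℂ, E) f t = 0 := by
    intro t
    have h1 : ∀ L : ℂ →L[ℂ] E, L 1 = 0 → L = 0 := fun L hL => by
      ext
      simpa using hL
    exact h1 _ (hv t)
  have : IsManifold 𝓘(ℂ, E) 1 X := IsManifold.of_le (n := ω) le_top
  have hloc : IsLocallyConstant f := by
    rw [IsLocallyConstant.iff_eventually_eq]
    intro t
    have hopen : IsOpen (f ⁻¹' (chartAt E (f t)).source) :=
      (chartAt E (f t)).open_source.preimage f.continuous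
    obtain ⟨r, hr, hball⟩ := Metric.isOpen_iff.1 hopen t (mem_chart_source E (f t))
    have hd : ∀ s ∈ Metric.ball t r,
        HasMFDerivAt 𝓘(ℂ, ℂ) 𝓘(ℂ, E) (chartAt E (f t) ∘ f) s (0 : ℂ →L[ℂ] E) := by
      intro s hs
      have h1 : MDifferentiableAt 𝓘(ℂ, E) 𝓘(ℂ, E) (chartAt E (f t)) (f s) :=
        mdifferentiableAt_atlas (I := 𝓘(ℂ, E)) (chart_mem_atlas E (f t)) (hball hs)
      have h2 := h1.hasMFDerivAt.comp s (hf s).hasMFDerivAt
      rw [hv' s] at h2
      convert h2 using 1
      exact (ContinuousLinearMap.comp_zero _).symm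
    have hd' : ∀ s ∈ Metric.ball t r, HasFDerivAt (chartAt E (f t) ∘ f) (0 : ℂ →L[ℂ] E) s :=
      fun s hs => (hd s hs).hasFDerivAt
    filter_upwards [Metric.ball_mem_nhds t hr] with w hw
    have h3 : (chartAt E (f t) ∘ f) w = (chartAt E (f t) ∘ f) t := by
      refine Metric.isOpen_ball.is_const_of_fderiv_eq_zero (𝕜 := ℂ)
        (convex_ball t r).isPreconnected ?_ ?_ hw (Metric.mem_ball_self hr)
      · exact fun s hs => (hd' s hs).differentiableAt.differentiableWithinAt
      · exact fun s hs => (hd' s hs).fderiv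
    exact (chartAt E (f t)).injOn (hball hw) (mem_chart_source E (f t)) h3
  exact hloc.apply_eq_of_isPreconnected isPreconnected_univ (Set.mem_univ _) (Set.mem_univ _)

end Pool.Agent.BrodyRigid
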