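import Mathlib

/-! # Rigidity of immersed Brody curves (MP_45e720_ag): definitions used in the proof -/

set_option autoImplicit false

open Filter Topology Metric Set

namespace Pool.Agent.BR

/-! ## Dynamics -/

section dyn

variable {X : Type} [MetricSpace X]

/-- `s` is a coarse `ε`-match of `g` and `h` on `Ω`: `h (s z)` is near `g z`, and `s` does not jump
by more than `r₁` on distances at most `r`. No continuity is required. -/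
def CM (ε r r₁ : ℝ) (g h : ℂ → X) (s : ℂ → ℂ) (Ω : Set ℂ) : Prop :=
  (∀ z ∈ Ω, dist (g z) (h (s z)) ≤ ε) ∧
    ∀ z ∈ Ω, ∀ z' ∈ Ω, ‖z - z'‖ ≤ r → ‖s z - s z'‖ ≤ r₁

/-- a compact, translation invariant, equicontinuous family of maps which are uniformly injective
at the scale `r₁` -/
structure Dyn (K : Set (ℂ → X)) (r₁ : ℝ) : Prop where
  pos : 0 < r₁
  tr : ∀ g ∈ K, ∀ w : ℂ, (fun z => g (z + w)) ∈ K
  lim : ∀ (U : Ultrafilter ℕ) (g : ℕ → ℂ → X), (∀ n, g n ∈ K) →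
    ∃ g' ∈ K, ∀ z, Tendsto (fun n => g n z) U (𝓝 (g' z))
  equi : ∀ ε > 0, ∃ δ > 0, ∀ g ∈ K, ∀ z z' : ℂ, ‖z - z'‖ < δ → dist (g z) (g z') < ε
  inj : ∀ η > 0, ∃ ε > 0, ∀ h ∈ K, ∀ w w' : ℂ, ‖w - w'‖ ≤ r₁ → dist (h w) (h w') < ε →
    ‖w - w'‖ < η

/-- the conclusion of the half-plane lemma -/
def HP0 (K : Set (ℂ → X)) (ε r r₁ : ℝ) : Prop :=
  ∀ g ∈ K, ∀ h ∈ K, ∀ (θ : ℂ) (s : ℂ → ℂ), ‖θ‖ = 1 →
    CM ε r r₁ g h s (insert 0 {z | (z * (starRingEnd ℂ) θ).re < 0}) →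
      ∃ w, ‖w - s 0‖ ≤ r₁ / 8 ∧ h w = g 0

/-- the conclusion for matches on the whole plane -/
def HPC (K : Set (ℂ → X)) (ε r r₁ : ℝ) : Prop :=
  ∀ g ∈ K, ∀ h ∈ K, ∀ s : ℂ → ℂ, CM ε r r₁ g h s univ →
    ∃ a b : ℂ, (∀ z, g z = h (a * z + b)) ∧ ‖b - s 0‖ ≤ r₁ / 8

end dyn

/-! ## Curves in a vector space -/

section pure

variable {E : Type} [NormedAddCommGroup E] [NormedSpace ℂ E]

/-- a holomorphic curve with controlled derivatives on the ball `ball z₀ r₀` -/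
structure GC (c C C₂ : ℝ) (G : ℂ → E) (z₀ : ℂ) (r₀ : ℝ) : Prop where
  an : ∀ z ∈ ball z₀ r₀, AnalyticAt ℂ G z
  lo : ∀ z ∈ ball z₀ r₀, c ≤ ‖deriv G z‖
  up : ∀ z ∈ ball z₀ r₀, ‖deriv G z‖ ≤ C
  acc : ∀ z ∈ ball z₀ r₀, ‖deriv (deriv G) z‖ ≤ C₂

/-- local normalised match of `G` and `H` near `z₀`, with values near `w₀`: `H (t z) - G z` is in
the kernel of the linear form `l`, which is large on the velocity of `G` -/
structure LO (c C₃ ρ₀ r₀ : ℝ) (G H : ℂ → E) (z₀ w₀ : ℂ) (l : E →L[ℂ] ℂ) (t : ℂ → ℂ) : Prop where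
  l_le : ‖l‖ ≤ 1
  t_an : ∀ z ∈ ball z₀ ρ₀, AnalyticAt ℂ t z
  t_mem : ∀ z ∈ ball z₀ ρ₀, t z ∈ ball w₀ r₀
  t_der : ∀ z ∈ ball z₀ ρ₀, ‖deriv t z‖ ≤ C₃
  eq : ∀ z ∈ ball z₀ ρ₀, l (H (t z)) = l (G z)
  uniq : ∀ z ∈ ball z₀ ρ₀, ∀ w ∈ ball w₀ r₀, ‖t z - w‖ ≤ C₃ * ‖H w - G z‖
  low : ∀ z ∈ ball z₀ ρ₀, c / 2 ≤ ‖l (deriv G z)‖

/-- sections of `O(k)` on the bundle of tangent 2-planes, on the open set `O` of `E`: generated by
the sections (`ne`) and immersive (`imm`) -/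
structure TForm (O : Set E) (L k : ℕ) (T : E → E → E → EuclideanSpace ℂ (Fin L)) : Prop where
  hol : ∀ ξ ∈ O, ∀ u v : E, AnalyticAt ℂ (fun p : E × E × E => T p.1 p.2.1 p.2.2) (ξ, u, v)
  equi : ∀ ξ ∈ O, ∀ (a b c d : ℂ) (u v : E),
    T ξ (a • u + b • v) (c • u + d • v) = (a * d - b * c) ^ k • T ξ u v
  ne : ∀ ξ ∈ O, ∀ u v : E, LinearIndependent ℂ ![u, v] → T ξ u v ≠ 0
  imm : ∀ ξ ∈ O, ∀ u v : E, LinearIndependent ℂ ![u, v] → ∀ (ξ' u' v' : E) (m : ℂ),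
    fderiv ℂ (fun p : E × E × E => T p.1 p.2.1 p.2.2) (ξ, u, v) (ξ', u', v') = m • T ξ u v →
      ξ' = 0 ∧ u' ∈ Submodule.span ℂ {u, v} ∧ v' ∈ Submodule.span ℂ {u, v}

/-- the transversal displacement of `H ∘ t` from `G`, measured by `T` -/
noncomputable def TV {L : ℕ} (T : E → E → E → EuclideanSpace ℂ (Fin L)) (G H : ℂ → E) (t : ℂ → ℂ) (z : ℂ) :
    EuclideanSpace ℂ (Fin L) :=
  T (G z) (H (t z) - G z) (deriv G z)

/-- `ψ` is a change of charts near `ξ`, with bounds -/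
structure Tra (M : ℝ) (ψ : E → E) (ξ : E) (D : E →L[ℂ] E) : Prop where
  d : HasFDerivAt ψ D ξ
  up : ∀ u, ‖D u‖ ≤ M * ‖u‖
  lo : ∀ u, ‖u‖ ≤ M * ‖D u‖
  quad : ∀ η : E, ‖η‖ * M ≤ 1 → ‖ψ (ξ + η) - ψ ξ - D η‖ ≤ M * ‖η‖ ^ 2

end pure

/-! ## Charts -/

/-- a finite atlas with cores `W i` -/
structure Cha (E X : Type) [NormedAddCommGroup E] [NormedSpace ℂ E] [MetricSpace X] where
  ι : Type
  fin : Finite ι
  ch : ι → OpenPartialHomeomorph X E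
  W : ι → Set X
  W_open : ∀ i, IsOpen (W i)
  W_sub : ∀ i, closure (W i) ⊆ (ch i).source
  cover : ∀ x, ∃ i, x ∈ W i
  trans : ∀ i j x, x ∈ (ch i).source → x ∈ (ch j).source →
    AnalyticAt ℂ (fun ξ => ch j ((ch i).symm ξ)) (ch i x)

namespace Cha

variable {E X : Type} [NormedAddCommGroup E] [NormedSpace ℂ E] [MetricSpace X] (A : Cha E X)

/-- the expression of `g` in the chart `i` -/
def loc (i : A.ι) (g : ℂ → X) : ℂ → E := fun z => A.ch i (g z)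

/-- `g` is holomorphic at `z` -/
def HolAt (g : ℂ → X) (z : ℂ) : Prop :=
  ContinuousAt g z ∧ ∀ i, g z ∈ (A.ch i).source → AnalyticAt ℂ (A.loc i g) z

/-- the entire curves with derivative bounded above and below -/
def KK (c C : ℝ) : Set (ℂ → X) :=
  {g | (∀ z, A.HolAt g z) ∧ ∀ z i, g z ∈ A.W i →
    c ≤ ‖deriv (A.loc i g) z‖ ∧ ‖deriv (A.loc i g) z‖ ≤ C}

/-- uniform constants for the family `KK c C` -/
structure Uni (c C lam r₀ C₂ : ℝ) : Prop where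
  c_pos : 0 < c
  C_pos : 0 < C
  lam_pos : 0 < lam
  r₀_pos : 0 < r₀
  leb : ∀ x, ∃ i, ball x lam ⊆ A.W i
  stay : ∀ g ∈ A.KK c C, ∀ z z' : ℂ, ‖z - z'‖ < 2 * r₀ → dist (g z) (g z') < lam / 4
  gc : ∀ g ∈ A.KK c C, ∀ i z₀, ball (g z₀) (lam / 2) ⊆ A.W i → GC c C C₂ (A.loc i g) z₀ r₀

/-- the forms in the charts -/
structure Frm (L k : ℕ) where
  T : A.ι → E → E → E → EuclideanSpace ℂ (Fin L)
  tf : ∀ i, TForm (A.ch i).target L k (T i)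
  compat : ∀ i j x, x ∈ (A.ch i).source → x ∈ (A.ch j).source → ∀ u v : E,
    T i (A.ch i x) u v = T j (A.ch j x)
      (fderiv ℂ (fun ξ => A.ch j ((A.ch i).symm ξ)) (A.ch i x) u)
      (fderiv ℂ (fun ξ => A.ch j ((A.ch i).symm ξ)) (A.ch i x) v)

end Cha

end Pool.Agent.BR
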