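import Pool.Agent.Lib_helper82.BR.GJet
import Pool.Agent.Lib_helper82.BR.Final

/-! # The theorem with gauges, in the form of `Statement.lean` and `Gauges.lean` -/

set_option autoImplicit false

open scoped Manifold ContDiff Bundle

namespace Pool.Agent.BrodyRigid

variable {E X : Type} [NormedAddCommGroup E] [NormedSpace ℂ E] [FiniteDimensional ℂ E]

/-- the examples of gauges -/
theorem gauge_examples [t : TopologicalSpace X] [CompactSpace X] [T2Space X] [ChartedSpace E X]
    [IsManifold 𝓘(ℂ, E) ω X] :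
    (∀ (m : ℕ) (σ : TangentBundle 𝓘(ℂ, E) X → ℂ), 0 < m → SS.IsSymDiff E X m σ →
      IsJetDifferential E X 1 fun g => σ (velocity (E := E) g 0)) ∧
    (∀ (k : ℕ) (P : C(ℂ, X) → ℂ), IsJetDifferential E X k P → IsGauge E X fun g => ‖P g‖) ∧
    (∀ N : TangentBundle 𝓘(ℂ, E) X → ℝ, IsSubharmonicSpeed E X N →
      IsGauge E X fun g => N (velocity (E := E) g 0)) := by
  have : ProperSpace E := FiniteDimensional.proper ℂ E
  have : SecondCountableTopology X := ChartedSpace.secondCountable_of_sigmaCompact E X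
  have : TopologicalSpace.MetrizableSpace X :=
    TopologicalSpace.metrizableSpace_of_t3_secondCountable X
  obtain ⟨m, hm⟩ : ∃ m : MetricSpace X,
      m.toPseudoMetricSpace.toUniformSpace.toTopologicalSpace = t :=
    ⟨TopologicalSpace.metrizableSpaceMetric X, rfl⟩
  subst hm
  exact ⟨fun _ _ hm hσ => BR.sym_jet hm hσ, fun _ _ hP => BR.jet_gauge hP,
    fun _ hN => BR.speed_gauge hN⟩

theorem main_gauge [t : TopologicalSpace X] [CompactSpace X] [T2Space X] [ChartedSpace E X]
    [IsManifold 𝓘(ℂ, E) ω X] (h : PlaneAmple E X) :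
    (∀ f : C(ℂ, X), IsBrodyCurve (E := E) f → DoublyPeriodic f ∨ GaugeNull E X f) ∧
    ((∀ f : C(ℂ, X), IsBrodyCurve (E := E) f → GaugeNull E X f → ∀ z z', f z = f z') →
      List.TFAE [SS.BrodyHyperbolic E X, SS.NoTorusMaps E X, NoEllipticMaps E X]) := by
  have : ProperSpace E := FiniteDimensional.proper ℂ E
  have : SecondCountableTopology X := ChartedSpace.secondCountable_of_sigmaCompact E X
  have : TopologicalSpace.MetrizableSpace X :=
    TopologicalSpace.metrizableSpace_of_t3_secondCountable X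
  obtain ⟨m, hm⟩ : ∃ m : MetricSpace X,
      m.toPseudoMetricSpace.toUniformSpace.toTopologicalSpace = t :=
    ⟨TopologicalSpace.metrizableSpaceMetric X, rfl⟩
  subst hm
  have hX := planeAmple_iff.1 h
  exact ⟨fun f hf => BR.gauge_brody hX f ((isBrodyCurve_iff f).1 hf),
    fun h => BR.gauge_tfae hX fun f hf => h f ((isBrodyCurve_iff f).2 hf)⟩

/-- everything together -/
theorem main_all [TopologicalSpace X] [CompactSpace X] [T2Space X] [ChartedSpace E X]
    [IsManifold 𝓘(ℂ, E) ω X] (h : PlaneAmple E X) :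
    (∀ f : ℂ → X, IsImmersedBrodyCurve (E := E) f → DoublyPeriodic f) ∧
    (∀ f : C(ℂ, X), IsBrodyCurve (E := E) f → DoublyPeriodic f ∨ GaugeNull E X f) ∧
    ((∀ f : C(ℂ, X), IsBrodyCurve (E := E) f → GaugeNull E X f → ∀ z z', f z = f z') ∨
        NonposCurved E X →
      List.TFAE [SS.BrodyHyperbolic E X, SS.NoTorusMaps E X, NoEllipticMaps E X]) := by
  obtain ⟨h1, -, h3⟩ := main_thm h
  obtain ⟨g1, g2⟩ := main_gauge h
  exact ⟨h1, g1, fun h4 => h4.elim g2 fun h5 => h3 (Or.inr h5)⟩

end Pool.Agent.BrodyRigid
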