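import Pool.Agent.Lib_helper82.BR.GMain

/-! # Jet differentials and subharmonic speeds are gauges (MP_45e720_ag) -/

set_option autoImplicit false
set_option linter.unusedSectionVars false

open Filter Topology Metric Set
open scoped Manifold ContDiff

namespace Pool.Agent.BR

open BrodyRigid (shift EntireCurves IsGauge GaugeNull chartJet IsJetDifferential
  IsSubharmonicSpeed)

section manifold

variable {E X : Type} [NormedAddCommGroup E] [NormedSpace ℂ E] [FiniteDimensional ℂ E]
  [MetricSpace X] [CompactSpace X] [ChartedSpace E X] [IsManifold 𝓘(ℂ, E) ω X]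

theorem gj_diff {g : C(ℂ, X)} (hg : g ∈ EntireCurves E X) (y : X) {U : Set ℂ}
    (hU : ∀ t ∈ U, g t ∈ (chartAt E y).source) :
    DifferentiableOn ℂ (fun t => chartAt E y (g t)) U := by
  have : IsManifold 𝓘(ℂ, E) 1 X := IsManifold.of_le (n := ω) le_top
  intro s hs
  have h1 : MDifferentiableAt 𝓘(ℂ, E) 𝓘(ℂ, E) (chartAt E y) (g s) :=
    mdifferentiableAt_atlas (I := 𝓘(ℂ, E)) (chart_mem_atlas E y) (hU s hs)
  have h2 : MDifferentiableAt 𝓘(ℂ, ℂ) 𝓘(ℂ, E) (chartAt E y ∘ g) s := h1.comp s (hg s)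
  rw [mdifferentiableAt_iff_differentiableAt] at h2
  exact h2.differentiableWithinAt

theorem gj_an {g : C(ℂ, X)} (hg : g ∈ EntireCurves E X) (y : X) {t : ℂ}
    (ht : g t ∈ (chartAt E y).source) : AnalyticAt ℂ (fun t => chartAt E y (g t)) t := by
  have : CompleteSpace E := FiniteDimensional.complete ℂ E
  have hU : IsOpen (g ⁻¹' (chartAt E y).source) :=
    (chartAt E y).open_source.preimage g.continuous
  exact (gj_diff hg y (U := g ⁻¹' (chartAt E y).source) fun s hs => hs).analyticAt
    (hU.mem_nhds ht)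

/-- the jets depend continuously on the curve -/
theorem gj_cont (k : ℕ) (y : X) {g₀ : C(ℂ, X)} (hg₀ : g₀ 0 ∈ (chartAt E y).source) :
    Tendsto (chartJet E k y) (𝓝[EntireCurves E X] g₀) (𝓝 (chartJet E k y g₀)) := by
  have : CompleteSpace E := FiniteDimensional.complete ℂ E
  -- a disc mapped to the chart domain
  have h1 : g₀ ⁻¹' (chartAt E y).source ∈ 𝓝 (0 : ℂ) :=
    ((chartAt E y).open_source.preimage g₀.continuous).mem_nhds hg₀
  obtain ⟨δ, hδ, hball⟩ := Metric.nhds_basis_closedBall.mem_iff.1 h1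
  have h2 : ∀ᶠ g : C(ℂ, X) in 𝓝[EntireCurves E X] g₀,
      MapsTo g (closedBall 0 δ) (chartAt E y).source := by
    refine mem_nhdsWithin_of_mem_nhds ?_
    exact (ContinuousMap.isOpen_setOfPred_mapsTo (isCompact_closedBall 0 δ)
      (chartAt E y).open_source).mem_nhds hball
  have h3 : ∀ᶠ g in 𝓝[EntireCurves E X] g₀, g ∈ EntireCurves E X := self_mem_nhdsWithin
  have h4 : ∀ᶠ g in 𝓝[EntireCurves E X] g₀,
      DifferentiableOn ℂ (fun t => chartAt E y (g t)) (ball 0 δ) := by
    filter_upwards [h2, h3] with g hg hg'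
    exact gj_diff hg' y fun t ht => hg (ball_subset_closedBall ht)
  have h5 : TendstoLocallyUniformlyOn (fun (g : C(ℂ, X)) t => chartAt E y (g t))
      (fun t => chartAt E y (g₀ t)) (𝓝[EntireCurves E X] g₀) (ball 0 δ) := by
    rw [isOpen_ball.tendstoLocallyUniformlyOn_iff_forall_tendsto]
    intro x hx
    have hx' : g₀ x ∈ (chartAt E y).source := hball (ball_subset_closedBall hx)
    have e1 : ContinuousAt (fun q : C(ℂ, X) × ℂ => q.1 q.2) (g₀, x) :=
      continuous_eval.continuousAt
    have e2 : Tendsto (fun q : C(ℂ, X) × ℂ => chartAt E y (q.1 q.2)) (𝓝 g₀ ×ˢ 𝓝 x)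
        (𝓝 (chartAt E y (g₀ x))) := by
      rw [← nhds_prod_eq]
      exact ((chartAt E y).continuousAt hx').tendsto.comp e1
    have e3 : Tendsto (fun q : C(ℂ, X) × ℂ => chartAt E y (q.1 q.2))
        (𝓝[EntireCurves E X] g₀ ×ˢ 𝓝 x) (𝓝 (chartAt E y (g₀ x))) :=
      e2.mono_left (Filter.prod_mono nhdsWithin_le_nhds le_rfl)
    have e4 : Tendsto (fun q : C(ℂ, X) × ℂ => chartAt E y (g₀ q.2))
        (𝓝[EntireCurves E X] g₀ ×ˢ 𝓝 x) (𝓝 (chartAt E y (g₀ x))) := by
      have e5 : Tendsto (fun t => chartAt E y (g₀ t)) (𝓝 x) (𝓝 (chartAt E y (g₀ x))) :=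
        ((chartAt E y).continuousAt hx').tendsto.comp g₀.continuous.continuousAt
      exact e5.comp tendsto_snd
    have e6 := e4.prodMk_nhds e3
    exact e6.mono_right (nhds_le_uniformity _)
  -- the derivatives
  have h6 : ∀ j : ℕ, TendstoLocallyUniformlyOn
      (fun (g : C(ℂ, X)) => iteratedDeriv j fun t => chartAt E y (g t))
      (iteratedDeriv j fun t => chartAt E y (g₀ t)) (𝓝[EntireCurves E X] g₀) (ball 0 δ) ∧
      ∀ᶠ g : C(ℂ, X) in 𝓝[EntireCurves E X] g₀,
        DifferentiableOn ℂ (iteratedDeriv j fun t => chartAt E y (g t)) (ball 0 δ) := by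
    intro j
    induction j with
    | zero => simpa only [iteratedDeriv_zero] using ⟨h5, h4⟩
    | succ j ih =>
      simp only [iteratedDeriv_succ]
      refine ⟨ih.1.deriv ih.2 isOpen_ball, ?_⟩
      filter_upwards [ih.2] with g hg
      exact hg.deriv isOpen_ball
  rw [tendsto_pi_nhds]
  intro j
  exact (h6 j).1.tendsto_at (mem_ball_self hδ)

theorem gj_jet_shift (k : ℕ) (y : X) (g : C(ℂ, X)) (z : ℂ) :
    chartJet E k y (shift g z) = fun j : Fin (k + 1) =>
      iteratedDeriv j (fun w => chartAt E y (g w)) z := by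
  funext j
  have h1 := congrFun (iteratedDeriv_comp_const_add (n := (j : ℕ))
    (f := fun w => chartAt E y (g w)) (s := z)) 0
  simp only [add_zero] at h1
  exact h1

theorem gj_jet_an (k : ℕ) (y : X) {g : C(ℂ, X)} (hg : g ∈ EntireCurves E X) {z : ℂ}
    (hz : g z ∈ (chartAt E y).source) :
    AnalyticAt ℂ (fun z => chartJet E k y (shift g z)) z := by
  have : CompleteSpace E := FiniteDimensional.complete ℂ E
  have h1 : (fun z => chartJet E k y (shift g z)) = fun z => fun j : Fin (k + 1) =>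
      iteratedDeriv j (fun w => chartAt E y (g w)) z := by
    funext z
    exact gj_jet_shift k y g z
  rw [h1, analyticAt_pi_iff]
  intro j
  simp only [iteratedDeriv_eq_iterate]
  exact (gj_an hg y hz).iterated_deriv _

/-- the mean value inequality for the norm of an entire function -/
theorem gj_mean {h : ℂ → ℂ} (hh : Differentiable ℂ h) (r : ℝ) :
    ‖h 0‖ ≤ Real.circleAverage (fun z => ‖h z‖) 0 r := by
  have h1 : Real.circleAverage h 0 r = h 0 := (hh.diffContOnCl).circleAverage
  rw [← h1, Real.circleAverage_def, Real.circleAverage_def, norm_smul, smul_eq_mul,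
    Real.norm_of_nonneg (by positivity)]
  refine mul_le_mul_of_nonneg_left ?_ (by positivity)
  exact intervalIntegral.norm_integral_le_integral_norm Real.two_pi_pos.le

/-- a jet differential is a gauge -/
theorem jet_gauge {k : ℕ} {P : C(ℂ, X) → ℂ} (hP : IsJetDifferential E X k P) :
    IsGauge E X fun g => ‖P g‖ := by
  refine ⟨?_, fun g _ => norm_nonneg _, fun g hg h0 => ?_, fun g hg r hr => ?_⟩
  · intro g₀ hg₀
    have hy := mem_chart_source E (g₀ 0)
    obtain ⟨p, hp, hpP⟩ := hP.hol (g₀ 0)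
    have h1 := gj_cont (E := E) k (g₀ 0) hy
    have h2 : ContinuousAt p (chartJet E k (g₀ 0) g₀) := by
      refine (hp _ ?_).continuousAt
      have e : chartJet E k (g₀ 0) g₀ 0 = chartAt E (g₀ 0) (g₀ 0) := by
        simp [chartJet]
      rw [e]
      exact (chartAt E (g₀ 0)).map_source hy
    have h3 : ∀ᶠ g in 𝓝[EntireCurves E X] g₀, g 0 ∈ (chartAt E (g₀ 0)).source := by
      refine mem_nhdsWithin_of_mem_nhds ?_
      exact ((continuous_eval_const (F := C(ℂ, X)) (0 : ℂ)).tendsto g₀).eventually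
        ((chartAt E (g₀ 0)).open_source.mem_nhds hy)
    have h4 : Tendsto P (𝓝[EntireCurves E X] g₀) (𝓝 (P g₀)) := by
      rw [hpP g₀ hg₀ hy]
      refine (h2.tendsto.comp h1).congr' ?_
      filter_upwards [h3, self_mem_nhdsWithin] with g hg hg'
      exact (hpP g hg' hg).symm
    have h5 : ContinuousWithinAt (fun g => ‖P g‖) (EntireCurves E X) g₀ := h4.norm
    exact h5.upperSemicontinuousWithinAt
  · rw [hP.stat g hg h0, norm_zero]
  · have hd : Differentiable ℂ fun z => P (shift g z) := by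
      intro z
      have hy := mem_chart_source E (g z)
      obtain ⟨p, hp, hpP⟩ := hP.hol (g z)
      have h1 := gj_jet_an (E := E) k (g z) hg (z := z) hy
      have h2 : AnalyticAt ℂ p (chartJet E k (g z) (shift g z)) := by
        refine hp _ ?_
        have e : chartJet E k (g z) (shift g z) 0 = chartAt E (g z) (g z) := by
          rw [gj_jet_shift]
          simp
        rw [e]
        exact (chartAt E (g z)).map_source hy
      have h3 : AnalyticAt ℂ (fun z' => p (chartJet E k (g z) (shift g z'))) z :=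
        h2.comp (f := fun z' => chartJet E k (g z) (shift g z')) h1
      refine h3.differentiableAt.congr_of_eventuallyEq ?_
      have h4 : ∀ᶠ z' in 𝓝 z, g z' ∈ (chartAt E (g z)).source :=
        g.continuous.continuousAt.eventually ((chartAt E (g z)).open_source.mem_nhds hy)
      filter_upwards [h4] with z' hz'
      refine hpP _ (shift_mem hg z') ?_
      show g (z' + 0) ∈ _
      rwa [add_zero]
    have h1 := gj_mean hd r
    rwa [shift_zero] at h1

theorem gj_vel (g : C(ℂ, X)) (hg : g ∈ EntireCurves E X) (y : X)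
    (hy : g 0 ∈ (chartAt E y).source) :
    velocity (E := E) g 0 = (chartAt (ModelProd E E) (⟨y, 0⟩ : TangentBundle 𝓘(ℂ, E) X)).symm
      (chartJet E 1 y g 0, chartJet E 1 y g 1) := by
  have e0 : chartJet E 1 y g 0 = chartAt E y (g 0) := by simp [chartJet]
  have e1 : chartJet E 1 y g 1 = deriv (fun w => chartAt E y (g w)) 0 := by
    simp [chartJet, iteratedDeriv_one]
  have h1 : velocity (E := E) g 0 ∈
      (chartAt (ModelProd E E) (⟨y, 0⟩ : TangentBundle 𝓘(ℂ, E) X)).source := by
    rw [hsc_src]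
    exact hy
  have h2 : chartAt (ModelProd E E) (⟨y, 0⟩ : TangentBundle 𝓘(ℂ, E) X)
      (velocity (E := E) g 0) = (chartAt E y (g 0), deriv (fun w => chartAt E y (g w)) 0) := by
    refine Prod.ext rfl ?_
    exact (hsc_coord y g 0 (hg 0) hy).symm
  rw [e0, e1, ← h2, OpenPartialHomeomorph.left_inv _ h1]

/-- the velocity depends continuously on the curve -/
theorem gj_vel_cont : ContinuousOn (fun g : C(ℂ, X) => velocity (E := E) g 0)
    (EntireCurves E X) := by
  intro g₀ hg₀
  have hy := mem_chart_source E (g₀ 0)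
  have h3 : ∀ᶠ g in 𝓝[EntireCurves E X] g₀, g 0 ∈ (chartAt E (g₀ 0)).source := by
    refine mem_nhdsWithin_of_mem_nhds ?_
    exact ((continuous_eval_const (F := C(ℂ, X)) (0 : ℂ)).tendsto g₀).eventually
      ((chartAt E (g₀ 0)).open_source.mem_nhds hy)
  have h1 := gj_cont (E := E) 1 (g₀ 0) hy
  rw [tendsto_pi_nhds] at h1
  have h2 := (h1 0).prodMk_nhds (h1 1)
  have h4 : ContinuousAt
      (chartAt (ModelProd E E) (⟨g₀ 0, 0⟩ : TangentBundle 𝓘(ℂ, E) X)).symm
      (chartJet E 1 (g₀ 0) g₀ 0, chartJet E 1 (g₀ 0) g₀ 1) := by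
    refine OpenPartialHomeomorph.continuousAt_symm _ ?_
    refine hsc_tgt _ _ _ ?_
    have e : chartJet E 1 (g₀ 0) g₀ 0 = chartAt E (g₀ 0) (g₀ 0) := by
      simp [chartJet]
    rw [e]
    exact (chartAt E (g₀ 0)).map_source hy
  show Tendsto _ _ (𝓝 (velocity (E := E) g₀ 0))
  rw [gj_vel g₀ hg₀ (g₀ 0) hy]
  refine (h4.tendsto.comp h2).congr' ?_
  filter_upwards [h3, self_mem_nhdsWithin] with g hg hg'
  exact (gj_vel g hg' (g₀ 0) hg).symm

theorem gj_vel_shift {g : C(ℂ, X)} (hg : g ∈ EntireCurves E X) (z : ℂ) :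
    velocity (E := E) (shift g z) 0 = velocity (E := E) g z := by
  have hy := mem_chart_source E (g (z + 0))
  have h1 : AnalyticAt ℂ (fun t => chartAt E (g (z + 0)) (g t)) (z + 0) := gj_an hg _ hy
  have h2 : AnalyticAt ℂ (fun t => chartAt E (g (z + 0)) (g (z + t))) 0 :=
    h1.comp (f := fun t : ℂ => z + t) (by fun_prop)
  have h3 := sym_mf (E := E) (f := shift g z) (z := 0) (shift g z).continuous.continuousAt
    h2.differentiableAt
  have h4 := sym_mf (E := E) (f := g) (z := z + 0) g.continuous.continuousAt h1.differentiableAt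
  have h5 : deriv (fun z' => chartAt E (shift g z 0) (shift g z z')) 0 =
      deriv (fun z' => chartAt E (g (z + 0)) (g z')) (z + 0) :=
    deriv_comp_const_add (f := fun z' => chartAt E (g (z + 0)) (g z')) z 0
  have h6 : (mfderiv 𝓘(ℂ, ℂ) 𝓘(ℂ, E) (shift g z) 0 (1 : ℂ) : E) =
      (mfderiv 𝓘(ℂ, ℂ) 𝓘(ℂ, E) g (z + 0) (1 : ℂ) : E) := h3.trans (h5.trans h4.symm)
  have h7 : velocity (E := E) (shift g z) 0 = velocity (E := E) g (z + 0) :=
    congrArg (fun v : E => (⟨g (z + 0), v⟩ : TangentBundle 𝓘(ℂ, E) X)) h6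
  rw [h7, add_zero]

/-- a subharmonic speed is a gauge -/
theorem speed_gauge {N : TangentBundle 𝓘(ℂ, E) X → ℝ} (hN : IsSubharmonicSpeed E X N) :
    IsGauge E X fun g => N (BrodyRigid.velocity (E := E) g 0) := by
  refine ⟨?_, fun g _ => hN.nonneg _, fun g hg h0 => ?_, fun g hg r hr => ?_⟩
  · exact (hN.usc.upperSemicontinuousOn univ).comp (gj_vel_cont (E := E) (X := X))
      fun _ _ => mem_univ _
  · show N (BrodyRigid.velocity (E := E) g 0) = 0
    rw [h0]
    exact hN.zero _
  · have h1 := hN.sub g hg 0 r hr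
    refine h1.trans (le_of_eq ?_)
    congr 1
    funext z
    exact congrArg N (gj_vel_shift hg z).symm

/-- a symmetric differential is a jet differential of order one -/
theorem sym_jet {m : ℕ} (hm : 0 < m) {σ : TangentBundle 𝓘(ℂ, E) X → ℂ}
    (hσ : SS.IsSymDiff E X m σ) :
    IsJetDifferential E X 1 fun g => σ (BrodyRigid.velocity (E := E) g 0) := by
  refine ⟨fun y => ?_, fun g hg h0 => ?_⟩
  · obtain ⟨S, S1, -, S3, S4⟩ := SS.symDiff_chart hσ
    refine ⟨fun J => S y (J 0) (J 1), fun J hJ => ?_, fun g hg hy => ?_⟩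
    · have h1 : AnalyticAt ℂ (fun J : Fin (1 + 1) → E => (J 0, J 1)) J :=
        (ContinuousLinearMap.analyticAt
          (ContinuousLinearMap.proj (R := ℂ) (φ := fun _ : Fin (1 + 1) => E) 0) J).prod
        (ContinuousLinearMap.analyticAt
          (ContinuousLinearMap.proj (R := ℂ) (φ := fun _ : Fin (1 + 1) => E) 1) J)
      exact (S1 y (J 0) hJ (J 1)).comp (f := fun J : Fin (1 + 1) → E => (J 0, J 1)) h1
    · have e0 : chartJet E 1 y g 0 = chartAt E y (g 0) := by simp [chartJet]
      have e1 : chartJet E 1 y g 1 = deriv (fun w => chartAt E y (g w)) 0 := by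
        simp [chartJet, iteratedDeriv_one]
      show σ (velocity (E := E) g 0) = S y (chartJet E 1 y g 0) (chartJet E 1 y g 1)
      rw [e0, e1]
      exact sym_vel g.continuous.continuousAt hy (gj_an hg y hy).differentiableAt S3 S4
  · show σ (BrodyRigid.velocity (E := E) g 0) = 0
    rw [h0]
    obtain ⟨P, hP⟩ := hσ.fib (g 0)
    exact (hP 0).trans (P.map_coord_zero ⟨0, hm⟩ rfl)

end manifold

end Pool.Agent.BR
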