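import Pool.Agent.Lib_helper82.BR.Statement

/-! # Gauges on the space of entire curves (MP_45e720_ag)

The space `C(ℂ, X)` of the continuous maps from the plane to `X` has the topology of locally
uniform convergence (the compact-open topology). -/

set_option autoImplicit false

open scoped Manifold ContDiff Bundle

namespace Pool.Agent.BrodyRigid

section

variable {X : Type} [TopologicalSpace X]

/-- the translate `w ↦ g (z + w)` of the curve `g` -/
noncomputable def shift (g : C(ℂ, X)) (z : ℂ) : C(ℂ, X) := ⟨fun w => g (z + w), by fun_prop⟩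

end

section

variable (E X : Type) [NormedAddCommGroup E] [NormedSpace ℂ E] [TopologicalSpace X]
  [ChartedSpace E X] [IsManifold 𝓘(ℂ, E) ω X]

/-- the set of the entire curves (holomorphic maps from the plane to `X`) -/
def EntireCurves : Set C(ℂ, X) := {g | MDifferentiable 𝓘(ℂ, ℂ) 𝓘(ℂ, E) g}

/-- `Θ` is a gauge: a nonnegative upper semicontinuous function on the space of entire curves, which
vanishes on the curves `g` with derivative zero at the origin, and such that the function
`z ↦ Θ (g (z + ·))` satisfies the submean value inequality for every entire curve `g`. -/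
structure IsGauge (Θ : C(ℂ, X) → ℝ) : Prop where
  usc : UpperSemicontinuousOn Θ (EntireCurves E X)
  nonneg : ∀ g ∈ EntireCurves E X, 0 ≤ Θ g
  stat : ∀ g ∈ EntireCurves E X, velocity (E := E) g 0 = ⟨g 0, (0 : E)⟩ → Θ g = 0
  sub : ∀ g ∈ EntireCurves E X, ∀ r : ℝ, 0 < r →
    Θ g ≤ Real.circleAverage (fun z => Θ (shift g z)) 0 r

/-- all gauges vanish along the curve `f` -/
def GaugeNull (f : C(ℂ, X)) : Prop :=
  ∀ Θ : C(ℂ, X) → ℝ, IsGauge E X Θ → ∀ z, Θ (shift f z) = 0

variable {X}

/-- the `k`-jet at the origin of the curve `g` in the chart at `y`: the derivatives of order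
`0, …, k` -/
noncomputable def chartJet (k : ℕ) (y : X) (g : C(ℂ, X)) : Fin (k + 1) → E :=
  fun j => iteratedDeriv j (fun z => chartAt E y (g z)) 0

variable (X)

/-- `P` is a holomorphic function of the `k`-jet at the origin of entire curves, which vanishes on
the curves with derivative zero at the origin. Examples are the invariant jet differentials of
order `k` and positive weight (Demailly, Semple), for `k = 1` the symmetric differentials of
positive degree, and the products of such a jet differential with an arbitrary (Green-Griffiths)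
jet differential. -/
structure IsJetDifferential (k : ℕ) (P : C(ℂ, X) → ℂ) : Prop where
  hol : ∀ y : X, ∃ p : (Fin (k + 1) → E) → ℂ,
    (∀ J, J 0 ∈ (chartAt E y).target → AnalyticAt ℂ p J) ∧
    ∀ g ∈ EntireCurves E X, g 0 ∈ (chartAt E y).source → P g = p (chartJet E k y g)
  stat : ∀ g ∈ EntireCurves E X, velocity (E := E) g 0 = ⟨g 0, (0 : E)⟩ → P g = 0

/-- `N` is a nonnegative upper semicontinuous function on the tangent bundle, zero on the zero
section, such that the function `z ↦ N (f' z)` satisfies the submean value inequality for every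
entire curve `f`. Examples are the singular hermitian and Finsler metrics of nonpositive curvature
(zeros are allowed). -/
structure IsSubharmonicSpeed (N : TangentBundle 𝓘(ℂ, E) X → ℝ) : Prop where
  usc : UpperSemicontinuous N
  nonneg : ∀ p, 0 ≤ N p
  zero : ∀ x : X, N ⟨x, (0 : E)⟩ = 0
  sub : ∀ f : ℂ → X, MDifferentiable 𝓘(ℂ, ℂ) 𝓘(ℂ, E) f → ∀ (z₀ : ℂ) (r : ℝ), 0 < r →
    N (velocity f z₀) ≤ Real.circleAverage (fun z => N (velocity f z)) z₀ r

end

end Pool.Agent.BrodyRigid
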