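import Pool.Agent.Lib_helper82.BR.Top
import Pool.Agent.Lib_helper82.BR.Gauges
import Pool.Agent.Lib_helper82.BR.GLiou

/-! # Brody curves and gauges: the main lemma (MP_45e720_ag) -/

set_option autoImplicit false
set_option linter.unusedSectionVars false

open Filter Topology Metric Set
open scoped Manifold ContDiff

namespace Pool.Agent.BR

open BrodyRigid (shift EntireCurves IsGauge GaugeNull)

section top

variable {X : Type} [TopologicalSpace X]

theorem shift_apply (g : C(ℂ, X)) (z w : ℂ) : shift g z w = g (z + w) := rfl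

theorem shift_shift (g : C(ℂ, X)) (z w : ℂ) : shift (shift g z) w = shift g (z + w) := by
  ext t
  show g (z + (w + t)) = g (z + w + t)
  rw [add_assoc]

theorem shift_zero (g : C(ℂ, X)) : shift g 0 = g := by
  ext t
  show g (0 + t) = g t
  rw [zero_add]

theorem shift_cont (g : C(ℂ, X)) : Continuous (shift g) := by
  refine ContinuousMap.continuous_of_continuous_uncurry _ ?_
  show Continuous fun p : ℂ × ℂ => g (p.1 + p.2)
  fun_prop

end top

section manifold

variable {E X : Type} [NormedAddCommGroup E] [NormedSpace ℂ E] [FiniteDimensional ℂ E]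
  [MetricSpace X] [CompactSpace X] [ChartedSpace E X] [IsManifold 𝓘(ℂ, E) ω X]

theorem mem_entire (A : Cha E X) (hA : ∀ i, ∃ y, A.ch i = chartAt E y) (g : C(ℂ, X)) :
    g ∈ EntireCurves E X ↔ ∀ t, A.HolAt g t := holAt_iff A hA g

theorem shift_mem {g : C(ℂ, X)} (hg : g ∈ EntireCurves E X) (z : ℂ) :
    shift g z ∈ EntireCurves E X := by
  show MDifferentiable 𝓘(ℂ, ℂ) 𝓘(ℂ, E) (fun w => g (z + w))
  refine MDifferentiable.comp (g := g) (f := fun w : ℂ => z + w) hg ?_
  rw [mdifferentiable_iff_differentiable]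
  fun_prop

/-- the function `z ↦ Θ (g (z + ·))` is upper semicontinuous -/
theorem gauge_usc {Θ : C(ℂ, X) → ℝ} (hΘ : IsGauge E X Θ) {g : C(ℂ, X)}
    (hg : g ∈ EntireCurves E X) : UpperSemicontinuous fun z => Θ (shift g z) := by
  have h1 : UpperSemicontinuousOn (fun z => Θ (shift g z)) univ :=
    hΘ.usc.comp (shift_cont g).continuousOn fun z _ => shift_mem hg z
  rwa [upperSemicontinuousOn_univ_iff] at h1

theorem gauge_sub {Θ : C(ℂ, X) → ℝ} (hΘ : IsGauge E X Θ) {g : C(ℂ, X)}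
    (hg : g ∈ EntireCurves E X) (z : ℂ) (r : ℝ) (hr : 0 < r) :
    Θ (shift g z) ≤ Real.circleAverage (fun z => Θ (shift g z)) z r := by
  have h1 := hΘ.sub (shift g z) (shift_mem hg z) r hr
  simp only [shift_shift] at h1
  have h2 := Real.circleAverage_map_add_const (f := fun z => Θ (shift g z)) (c := z) (R := r)
  simp only [add_comm _ z] at h2
  rwa [h2] at h1

/-- limits of the translates of a Brody curve -/
theorem shift_lim (A : Cha E X) (hA : ∀ i, ∃ y, A.ch i = chartAt E y) {f : C(ℂ, X)}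
    (hf : f ∈ EntireCurves E X) {C : ℝ}
    (hC : ∀ z i, f z ∈ A.W i → ‖deriv (A.loc i f) z‖ ≤ C) (U : Ultrafilter ℕ) (a : ℕ → ℂ) :
    ∃ g ∈ EntireCurves E X, Tendsto (fun n => shift f (a n)) U (𝓝 g) ∧
      ∀ i, g 0 ∈ (A.ch i).source →
        Tendsto (fun n => deriv (A.loc i f) (a n)) U (𝓝 (deriv (A.loc i g) 0)) := by
  have hf' := (mem_entire A hA f).1 hf
  obtain ⟨g, hg⟩ := ultra_lim A U (fun n z => f (z + a n)) C (fun R =>
    Eventually.of_forall fun n t _ => ⟨hsc_hol_tr A hf' (a n) t, fun i hi => by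
      rw [hsc_deriv_tr]
      exact hC (t + a n) i hi⟩)
  have hgh : ∀ t, A.HolAt g t := fun t => (hg t).1
  have hgc : Continuous g := continuous_iff_continuousAt.2 fun t => (hgh t).1
  refine ⟨⟨g, hgc⟩, (mem_entire A hA _).2 hgh, ?_, fun i hi => ?_⟩
  · rw [ContinuousMap.tendsto_iff_forall_isCompact_tendstoUniformlyOn]
    intro K hK
    rw [Metric.tendstoUniformlyOn_iff]
    intro ε hε
    obtain ⟨δ, hδ, heq⟩ := equicont A C (ε / 3) (by positivity)
    -- a finite net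
    obtain ⟨T, hT, hKT⟩ := (Metric.totallyBounded_iff.1 hK.totallyBounded) δ hδ
    have hg3 : ∀ z z' : ℂ, ‖z - z'‖ < δ → dist (g z) (g z') ≤ ε / 3 := by
      intro z z' hz
      have h1 : Tendsto (fun n => dist (f (z + a n)) (f (z' + a n))) U
          (𝓝 (dist (g z) (g z'))) := (hg z).2.1.dist (hg z').2.1
      refine le_of_tendsto h1 (Eventually.of_forall fun n => ?_)
      refine (heq f hf' hC _ _ ?_).le
      rwa [add_sub_add_right_eq_sub]
    have h1 : ∀ᶠ n in (U : Filter ℕ), ∀ t ∈ T, dist (g t) (f (t + a n)) < ε / 3 := by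
      rw [eventually_all_finite hT]
      intro t _
      have h2 := (hg t).2.1.eventually (ball_mem_nhds (g t) (show 0 < ε / 3 by positivity))
      filter_upwards [h2] with n hn
      rw [dist_comm]
      exact hn
    filter_upwards [h1] with n hn z hz
    obtain ⟨t, ht, hzt⟩ := mem_iUnion₂.1 (hKT hz)
    rw [mem_ball_iff_norm] at hzt
    show dist (g z) (f (a n + z)) < ε
    rw [add_comm (a n)]
    have h2 := hg3 z t hzt
    have h3 := heq f hf' hC (t + a n) (z + a n) (by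
      rw [add_sub_add_right_eq_sub, norm_sub_rev]
      exact hzt)
    have h4 := hn t ht
    have h5 := dist_triangle4 (g z) (g t) (f (t + a n)) (f (z + a n))
    linarith
  · refine ((hg 0).2.2 i hi).congr fun n => ?_
    rw [hsc_deriv_tr, zero_add]

/-- stationary curves -/
theorem stat_of_deriv (A : Cha E X) (hA : ∀ i, ∃ y, A.ch i = chartAt E y) {g : C(ℂ, X)}
    (hg : g ∈ EntireCurves E X) {i : A.ι} (hi : g 0 ∈ (A.ch i).source)
    (h0 : deriv (A.loc i g) 0 = 0) : BrodyRigid.velocity (E := E) g 0 = ⟨g 0, (0 : E)⟩ := by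
  obtain ⟨y, hy⟩ := hA i
  have hloc : A.loc i g = fun z => chartAt E y (g z) := by
    funext z
    rw [Cha.loc, hy]
  rw [hloc] at h0
  rw [hy] at hi
  have h1 := vel_coord y g 0 (hg 0) hi
  rw [h0] at h1
  have h2 : ((velocity (E := E) g 0).2 : E) = 0 := vel_inj y _ hi h1.symm
  show (⟨g 0, (velocity (E := E) g 0).2⟩ : TangentBundle 𝓘(ℂ, E) X) = ⟨g 0, (0 : E)⟩
  exact congrArg (fun v : E => (⟨g 0, v⟩ : TangentBundle 𝓘(ℂ, E) X)) h2

/-- a Brody curve on which some gauge is not zero is uniformly immersed -/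
theorem gauge_immersed (A : Cha E X) (hA : ∀ i, ∃ y, A.ch i = chartAt E y) {f : C(ℂ, X)}
    (hf : f ∈ EntireCurves E X) {C : ℝ}
    (hC : ∀ z i, f z ∈ A.W i → ‖deriv (A.loc i f) z‖ ≤ C) {Θ : C(ℂ, X) → ℝ}
    (hΘ : IsGauge E X Θ) :
    (∀ z, Θ (shift f z) = 0) ∨ ∃ c > 0, ∃ C' > 0, ⇑f ∈ A.KK c C' := by
  obtain ⟨U, hU⟩ : ∃ U : Ultrafilter ℕ, U = hyperfilter ℕ := ⟨_, rfl⟩
  have hUtop : (U : Filter ℕ) ≤ atTop := by rw [hU]; exact Nat.hyperfilter_le_atTop
  have hnn : ∀ z, 0 ≤ Θ (shift f z) := fun z => hΘ.nonneg _ (shift_mem hf z)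
  have husc : ∀ {g : C(ℂ, X)} {a : ℕ → ℂ}, g ∈ EntireCurves E X →
      Tendsto (fun n => shift f (a n)) U (𝓝 g) → ∀ y, Θ g < y →
        ∀ᶠ n in (U : Filter ℕ), Θ (shift f (a n)) < y := by
    intro g a hg hlim y hy
    have h1 : ∀ᶠ h in 𝓝[EntireCurves E X] g, Θ h < y := hΘ.usc g hg y hy
    have h2 : Tendsto (fun n => shift f (a n)) U (𝓝[EntireCurves E X] g) :=
      tendsto_nhdsWithin_iff.2 ⟨hlim, Eventually.of_forall fun n => shift_mem hf _⟩
    exact h2.eventually h1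
  -- bounded above
  obtain ⟨M, hM⟩ : ∃ M, ∀ z, Θ (shift f z) ≤ M := by
    by_contra hcon
    push Not at hcon
    choose a ha using fun n : ℕ => hcon n
    obtain ⟨g, hg, hlim, -⟩ := shift_lim A hA hf hC U a
    have h1 := husc hg hlim (Θ g + 1) (by linarith)
    have h2 : ∀ᶠ n : ℕ in (U : Filter ℕ), Θ g + 1 < n :=
      hUtop (tendsto_natCast_atTop_atTop.eventually (eventually_gt_atTop (Θ g + 1)))
    obtain ⟨n, hn1, hn2⟩ := (h1.and h2).exists
    linarith [ha n]
  have hconst := BrodyRigid.usc_liouville (gauge_usc hΘ hf) hM hnn (gauge_sub hΘ hf)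
  obtain ⟨α, hα⟩ : ∃ α, α = Θ (shift f 0) := ⟨_, rfl⟩
  have hαz : ∀ z, Θ (shift f z) = α := fun z => by rw [hα]; exact hconst z 0
  rcases eq_or_lt_of_le (show 0 ≤ α by rw [hα]; exact hnn 0) with h0 | h0
  · exact Or.inl fun z => (hαz z).trans h0.symm
  right
  obtain ⟨c, hc, hcb⟩ : ∃ c > 0, ∀ z i, f z ∈ A.W i → c ≤ ‖deriv (A.loc i f) z‖ := by
    by_contra hcon
    push Not at hcon
    have hex : ∀ n : ℕ, ∃ z i, f z ∈ A.W i ∧ ‖deriv (A.loc i f) z‖ < 1 / ((n : ℝ) + 1) :=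
      fun n => hcon _ (by positivity)
    choose a j hj1 hj2 using hex
    obtain ⟨g, hg, hlim, hder⟩ := shift_lim A hA hf hC U a
    -- the chart is constant along the ultrafilter
    have hfin := A.fin
    obtain ⟨i, hi⟩ : ∃ i, ∀ᶠ n in (U : Filter ℕ), j n = i := by
      have h1 : ∀ᶠ n in (U : Filter ℕ), ∃ i, j n = i := Eventually.of_forall fun n => ⟨_, rfl⟩
      exact Ultrafilter.eventually_exists_iff.1 h1
    have hg0 : Tendsto (fun n => f (a n)) U (𝓝 (g 0)) := by
      have h1 := ((continuous_eval_const (F := C(ℂ, X)) (0 : ℂ)).tendsto g).comp hlim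
      refine h1.congr fun n => ?_
      show f (a n + 0) = f (a n)
      rw [add_zero]
    have hcl : g 0 ∈ closure (A.W i) := by
      refine mem_closure_of_tendsto hg0 ?_
      filter_upwards [hi] with n hn
      rw [← hn]
      exact hj1 n
    have hsrc : g 0 ∈ (A.ch i).source := A.W_sub i hcl
    have hd0 : deriv (A.loc i g) 0 = 0 := by
      have h1 := (hder i hsrc).norm
      have h2 : Tendsto (fun n : ℕ => 1 / ((n : ℝ) + 1)) U (𝓝 0) :=
        tendsto_one_div_add_atTop_nhds_zero_nat.mono_left hUtop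
      have h3 : ‖deriv (A.loc i g) 0‖ ≤ 0 := by
        refine le_of_tendsto_of_tendsto h1 h2 ?_
        filter_upwards [hi] with n hn
        rw [← hn]
        exact (hj2 n).le
      exact norm_le_zero_iff.1 h3
    have hΘ0 : Θ g = 0 := hΘ.stat g hg (stat_of_deriv A hA hg hsrc hd0)
    have h1 := husc hg hlim α (by rw [hΘ0]; exact h0)
    obtain ⟨n, hn⟩ := h1.exists
    rw [hαz] at hn
    exact lt_irrefl _ hn
  refine ⟨c, hc, max C 1, lt_max_of_lt_right one_pos, (mem_entire A hA f).1 hf, fun z i hz => ?_⟩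
  exact ⟨hcb z i hz, (hC z i hz).trans (le_max_left _ _)⟩

theorem gauge_brody (hX : PlaneAmple E X) (f : C(ℂ, X)) (hf : IsBrodyCurve (E := E) f) :
    DoublyPeriodic f ∨ GaugeNull E X f := by
  obtain ⟨A, hA⟩ := exists_cha (E := E) (X := X)
  obtain ⟨L, k, hk, ⟨F⟩⟩ := exists_frm A hA hX
  obtain ⟨C, hC⟩ := brody_bound A hA f hf
  by_cases hann : GaugeNull E X f
  · exact Or.inr hann
  · left
    unfold GaugeNull at hann
    push Not at hann
    obtain ⟨Θ, hΘ, z, hz⟩ := hann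
    rcases gauge_immersed A hA (f := f) hf.1 hC hΘ with h | ⟨c, hc, C', hC', h⟩
    · exact absurd (h z) hz
    · exact kk_periodic F hk hc hC' h

theorem gauge_nonhyp (hX : PlaneAmple E X) (h : ¬ SS.BrodyHyperbolic E X) :
    (∃ f : ℂ → X, MDifferentiable 𝓘(ℂ, ℂ) 𝓘(ℂ, E) f ∧ DoublyPeriodic f ∧ ∃ z z', f z ≠ f z') ∨
      ∃ f : C(ℂ, X), IsBrodyCurve (E := E) f ∧ GaugeNull E X f ∧ ∃ z z', f z ≠ f z' := by
  obtain ⟨A, hA⟩ := exists_cha (E := E) (X := X)
  unfold SS.BrodyHyperbolic at h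
  push Not at h
  obtain ⟨f, hf, hne⟩ := h
  obtain ⟨g, hg, ⟨C, hC⟩, hgne⟩ := brody_curve A f ((holAt_iff A hA f).1 hf) hne
  have hgb := brody_of_bound A hA g hg C hC
  have hgc : Continuous g := continuous_iff_continuousAt.2 fun t => (hg t).1
  rcases gauge_brody hX ⟨g, hgc⟩ hgb with h1 | h1
  · exact Or.inl ⟨g, hgb.1, h1, hgne⟩
  · exact Or.inr ⟨⟨g, hgc⟩, hgb, h1, hgne⟩

theorem gauge_tfae (hX : PlaneAmple E X)
    (h : ∀ f : C(ℂ, X), IsBrodyCurve (E := E) f → GaugeNull E X f → ∀ z z', f z = f z') :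
    List.TFAE [SS.BrodyHyperbolic E X, SS.NoTorusMaps E X, NoEllipticMaps E X] := by
  tfae_have 1 → 2 := torus_of_brody
  tfae_have 2 → 3 := elliptic_of_torus
  tfae_have 3 → 1 := by
    intro h3
    by_contra h1
    rcases gauge_nonhyp hX h1 with ⟨f, hf, hp, z, z', hz⟩ | ⟨f, hf, ha, z, z', hz⟩
    · exact hz (h3 f hf hp z z')
    · exact hz (h f hf ha z z')
  tfae_finish

end manifold

end Pool.Agent.BR
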