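import Pool.Agent.Lib_helper82.BR.B.UNI
import Pool.Agent.Lib_helper82.BR.B.MAT
import Pool.Agent.Lib_helper82.BR.B.CMP
import Pool.Agent.Lib_helper82.BR.B.STR
import Pool.Agent.Lib_helper82.BR.B.MCH
import Pool.Agent.Lib_helper26.BR.Key

/-! # The half-plane lemma (MP_45e720_ag) -/

set_option autoImplicit false
set_option linter.unusedSectionVars false

open Filter Topology Metric Set

namespace Pool.Agent.BR

section

variable {E X : Type} [NormedAddCommGroup E] [NormedSpace ℂ E] [FiniteDimensional ℂ E]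
  [MetricSpace X] [CompactSpace X] {A : Cha E X}

theorem Mt.mono {c C₃ lam r₀ ρ₀ ρ δ δ' : ℝ} {g h : ℂ → X} {s : ℂ → ℂ} {z₀ : ℂ} {i : A.ι}
    {l : E →L[ℂ] ℂ} {t : ℂ → ℂ} (hM : Mt A c C₃ lam r₀ ρ₀ ρ δ g h s z₀ i l t) (hδ : δ ≤ δ') :
    Mt A c C₃ lam r₀ ρ₀ ρ δ' g h s z₀ i l t :=
  ⟨hM.bg, hM.bh, hM.lo, fun z hz => (hM.ts z hz).trans hδ, fun z hz => (hM.small z hz).trans hδ⟩

/-- the displacement vanishes deep inside -/
theorem hpa_core {c C lam r₀ C₂ : ℝ} (hU : A.Uni c C lam r₀ C₂) {L k : ℕ} (F : A.Frm L k)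
    (hk : 0 < k) {C₃ ρ₀ ρ : ℝ} (hρ : 0 < ρ) (hρ₀ : ρ ≤ ρ₀ / 4) (hr₀ : ρ₀ ≤ r₀) :
    ∃ δ > 0, ∀ δ' ≤ δ, ∀ g ∈ A.KK c C, ∀ h ∈ A.KK c C, ∀ (s : ℂ → ℂ) (P : ℂ → Prop)
      (i : ℂ → A.ι) (l : ℂ → E →L[ℂ] ℂ) (t : ℂ → ℂ → ℂ),
      (∀ z₀, P z₀ → Mt A c C₃ lam r₀ ρ₀ ρ δ' g h s z₀ (i z₀) (l z₀) (t z₀)) →
      ∀ (θ : ℂ) (a : ℝ), ‖θ‖ = 1 → (∀ z, 0 < a - (z * (starRingEnd ℂ) θ).re → P z) →
        ∀ z, ρ / 2 < a - (z * (starRingEnd ℂ) θ).re →
          TV (F.T (i z)) (A.loc (i z) g) (A.loc (i z) h) (t z) z = 0 := by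
  obtain ⟨κ, hκ, hstr⟩ := mt_strict hU F hk (C₃ := C₃) hρ hρ₀ hr₀
  obtain ⟨B, hB⟩ := mt_bound hU F (C₃ := C₃) hρ hρ₀ hr₀
  obtain ⟨S, hS⟩ : ∃ S, S = √(1 + (κ * (ρ / 2)) ^ 2) := ⟨_, rfl⟩
  have hS1 : 1 < S := by
    rw [hS]
    have h1 : (1 : ℝ) < 1 + (κ * (ρ / 2)) ^ 2 := by
      have : 0 < (κ * (ρ / 2)) ^ 2 := by positivity
      linarith
    calc (1 : ℝ) = √1 := Real.sqrt_one.symm
      _ < √(1 + (κ * (ρ / 2)) ^ 2) := Real.sqrt_lt_sqrt zero_le_one h1
  have hS2 : 1 < √S := by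
    calc (1 : ℝ) = √1 := Real.sqrt_one.symm
      _ < √S := Real.sqrt_lt_sqrt zero_le_one hS1
  obtain ⟨δ, hδ, hcmp⟩ := mt_compare hU F hk (C₃ := C₃) hρ hρ₀ hr₀ (√S - 1) (by linarith)
  refine ⟨min δ 1, lt_min hδ one_pos, ?_⟩
  intro δ' hδ' g hg h hh s P i l t hM θ a hθ hP
  have hMδ : ∀ z₀, P z₀ → Mt A c C₃ lam r₀ ρ₀ ρ δ g h s z₀ (i z₀) (l z₀) (t z₀) :=
    fun z₀ hz => (hM z₀ hz).mono (hδ'.trans (min_le_left _ _))
  obtain ⟨val, hval⟩ : ∃ val : ℂ → ℝ, ∀ z, val z =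
      ‖TV (F.T (i z)) (A.loc (i z) g) (A.loc (i z) h) (t z) z‖ := ⟨_, fun _ => rfl⟩
  have hdep : ∀ z z' : ℂ, ‖z - z'‖ ≤ ρ / 2 →
      (a - (z' * (starRingEnd ℂ) θ).re) - ρ / 2 ≤ a - (z * (starRingEnd ℂ) θ).re := by
    intro z z' hz
    have h1 : (z * (starRingEnd ℂ) θ).re - (z' * (starRingEnd ℂ) θ).re =
        ((z - z') * (starRingEnd ℂ) θ).re := by
      rw [sub_mul, Complex.sub_re]
    have h2 : ((z - z') * (starRingEnd ℂ) θ).re ≤ ‖z - z'‖ := by
      refine (Complex.re_le_norm _).trans ?_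
      rw [norm_mul, RCLike.norm_conj, hθ, mul_one]
    linarith
  have hfin := iterate (val := val) (dep := fun z => a - (z * (starRingEnd ℂ) θ).re)
    (r := ρ / 2) (c := Real.log (√S)) (B := max B 0) (by positivity) (Real.log_pos hS2) hdep
    (by
      intro z hz
      rw [hval]
      have h1 := hB δ' (hδ'.trans (min_le_right _ _)) g hg h hh s z (i z) (l z) (t z) (hM z (hP z hz))
      refine h1.trans ((le_max_left B 0).trans ?_)
      have := Real.add_one_le_exp (max B 0)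
      linarith)
    (by
      intro z₀ hz₀ B' b hb
      have hPz : ∀ z, ‖z - z₀‖ ≤ ρ / 2 → P z := by
        intro z hz
        refine hP z ?_
        have := hdep z z₀ hz
        linarith
      have hM₀ := hMδ z₀ (hPz z₀ (by rw [sub_self, norm_zero]; positivity))
      obtain ⟨T, hT⟩ : ∃ T, T = TV (F.T (i z₀)) (A.loc (i z₀) g) (A.loc (i z₀) h) (t z₀) :=
        ⟨_, rfl⟩
      have han : ∀ z ∈ ball z₀ ρ₀, AnalyticAt ℂ T z := by
        rw [hT]
        exact mt_an hU F hr₀ hg hh hM₀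
      have hcl : closedBall z₀ (ρ / 2) ⊆ ball z₀ ρ₀ := by
        apply closedBall_subset_ball
        linarith
      have hdc : DiffContOnCl ℂ T (ball z₀ (ρ / 2)) := by
        apply DifferentiableOn.diffContOnCl
        rw [closure_ball z₀ (by positivity)]
        intro z hz
        exact (han z (hcl hz)).differentiableAt.differentiableWithinAt
      have hder : HasDerivAt T (deriv T z₀) z₀ :=
        (han z₀ (mem_ball_self (by linarith))).differentiableAt.hasDerivAt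
      have him : ∀ m : ℂ, κ * ‖T z₀‖ ≤ ‖deriv T z₀ - m • T z₀‖ := by
        rw [hT]
        exact hstr δ g hg h hh s z₀ (i z₀) (l z₀) (t z₀) hM₀
      have hsph : ∀ z, ‖z - z₀‖ = ρ / 2 →
          ‖T z‖ ≤ Real.exp ((B' + Real.log (√S) - b * a) -
            ((-(b : ℂ) * (starRingEnd ℂ) θ) * z).re) := by
        intro z hz
        have h1 := hcmp g hg h hh s z₀ z (i z₀) (i z) (l z₀) (l z) (t z₀) (t z) hz.le hM₀
          (hMδ z (hPz z hz.le))
        rw [← hT, ← hval] at h1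
        have h2 := hb z hz
        have h3 : (1 + (√S - 1)) * val z ≤ √S * Real.exp (B' - b * (a - (z * (starRingEnd ℂ) θ).re)) := by
          have h4 : 1 + (√S - 1) = √S := by ring
          rw [h4]
          exact mul_le_mul_of_nonneg_left h2 (Real.sqrt_nonneg _)
        refine (h1.trans h3).trans (le_of_eq ?_)
        have h5 : (-(b : ℂ) * (starRingEnd ℂ) θ * z).re = - (b * (z * (starRingEnd ℂ) θ).re) := by
          have h6 : -(b : ℂ) * (starRingEnd ℂ) θ * z = ((-b : ℝ) : ℂ) * (z * (starRingEnd ℂ) θ) := by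
            push_cast
            ring
          rw [h6, Complex.re_ofReal_mul]
          ring
        rw [h5]
        have h7 : B' + Real.log √S - b * a - -(b * (z * (starRingEnd ℂ) θ).re) =
            Real.log (√S) + (B' - b * (a - (z * (starRingEnd ℂ) θ).re)) := by ring
        rw [h7, Real.exp_add, Real.exp_log (by linarith)]
      have hkey := key_ineq (by positivity) hκ hdc hder him hsph
      rw [← hS] at hkey
      have h5 : (-(b : ℂ) * (starRingEnd ℂ) θ * z₀).re = - (b * (z₀ * (starRingEnd ℂ) θ).re) := by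
        have h6 : -(b : ℂ) * (starRingEnd ℂ) θ * z₀ =
            ((-b : ℝ) : ℂ) * (z₀ * (starRingEnd ℂ) θ) := by
          push_cast
          ring
        rw [h6, Complex.re_ofReal_mul]
        ring
      rw [h5] at hkey
      have h8 : val z₀ = ‖T z₀‖ := by rw [hval, hT]
      rw [h8]
      have h9 : B' + Real.log √S - b * a - -(b * (z₀ * (starRingEnd ℂ) θ).re) =
          (B' - Real.log √S - b * (a - (z₀ * (starRingEnd ℂ) θ).re)) + 2 * Real.log √S := by ring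
      have h10 : Real.exp (2 * Real.log √S) = S := by
        rw [two_mul, Real.exp_add, Real.exp_log (by linarith),
          Real.mul_self_sqrt (by linarith)]
      rw [h9, Real.exp_add, h10] at hkey
      exact le_of_mul_le_mul_right hkey (by linarith))
  intro z hz
  have h1 := hfin z hz
  rw [hval] at h1
  exact norm_le_zero_iff.1 h1

end

end Pool.Agent.BR
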