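import Pool.Agent.Lib_helper82.BR.Defs
import Pool.Agent.Lib_helper82.BR.Notions

/-! # Rigidity of immersed Brody curves (MP_45e720_ag): local matches -/

set_option autoImplicit false
set_option linter.unusedSectionVars false

open Filter Topology Metric Set
open scoped Manifold ContDiff

namespace Pool.Agent.BR

section mtch

variable {E X : Type} [NormedAddCommGroup E] [NormedSpace ℂ E] [FiniteDimensional ℂ E]
  [MetricSpace X] [CompactSpace X] {A : Cha E X}

/-- the local match with chart `i`, linear form `l` and time change `t` -/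
structure Mt (A : Cha E X) (c C₃ lam r₀ ρ₀ ρ δ : ℝ) (g h : ℂ → X) (s : ℂ → ℂ) (z₀ : ℂ) (i : A.ι)
    (l : E →L[ℂ] ℂ) (t : ℂ → ℂ) : Prop where
  bg : ball (g z₀) lam ⊆ A.W i
  bh : ball (h (s z₀)) (lam / 2) ⊆ A.W i
  lo : LO c C₃ ρ₀ r₀ (A.loc i g) (A.loc i h) z₀ (s z₀) l t
  ts : ∀ z ∈ ball z₀ ρ, ‖t z - s z‖ ≤ δ
  small : ∀ z ∈ ball z₀ ρ, ‖A.loc i h (t z) - A.loc i g z‖ ≤ δ

end mtch

end Pool.Agent.BR
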